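import Pool.Agent.Helper13.M.Defs
import Pool.Agent.SC.Final
import Pool.Agent.Helper17.FF.Transport

/-!
# Project M, block MU: the places of the abelian unramified levels fixed by `φ`
-/

set_option autoImplicit false

namespace Pool.Agent.M

open VC IntermediateField NumberField IsDedekindDomain Pool.Agent.SC Pool.Agent.L

/-- the roots of unity of `U` are constants -/
theorem root_const99 {E U : Type} [Field E] [IsAlgClosed E] [CharZero E] [Field U]
    [Algebra E U] {n : ℕ} (hn : 0 < n) {u : U} (hu : u ^ n = 1) :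
    ∃ ζ : E, ζ ^ n = 1 ∧ algebraMap E U ζ = u := by
  have h0 : NeZero (n : E) := ⟨Nat.cast_ne_zero.2 hn.ne'⟩
  have h0' : NeZero n := ⟨hn.ne'⟩
  obtain ⟨ξ, hξ⟩ := HasEnoughRootsOfUnity.exists_primitiveRoot E n
  have h1 : IsPrimitiveRoot (algebraMap E U ξ) n :=
    hξ.map_of_injective (algebraMap E U).injective
  obtain ⟨i, hi, h2⟩ := h1.eq_pow_of_pow_eq_one hu
  exact ⟨ξ ^ i, by rw [← pow_mul, mul_comm, pow_mul, hξ.pow_eq_one, one_pow],
    by rw [map_pow, h2]⟩

section

variable {E K0 U : Type} [Field E] [Field K0] [Field U] [Algebra E U] [Algebra K0 U]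

theorem L0_le99 {n : ℕ} : L0 E K0 (U := U) ≤ NN E K0 n (U := U) := by
  unfold L0 NN
  exact IntermediateField.adjoin.mono _ _ _ Set.subset_union_left

theorem mem_NN99 {n : ℕ} {w : U} (hw : UR E K0 n w) : w ∈ NN E K0 n (U := U) :=
  IntermediateField.subset_adjoin _ _ (Or.inr hw)

/-- an automorphism over `L0` multiplies an `n`-th root by an `n`-th root of unity -/
theorem eig99 [IsAlgClosed E] [CharZero E] {n : ℕ} (hn : 0 < n) {w : U}
    (hw : UR E K0 n w) (a : U ≃ₐ[E] U) (ha : ∀ x ∈ L0 E K0 (U := U), a x = x) :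
    ∃ ζ : E, ζ ^ n = 1 ∧ a w = algebraMap E U ζ * w := by
  obtain ⟨hw0, f, hf, -⟩ := hw
  have h1 : (a w / w) ^ n = 1 := by
    rw [div_pow, ← map_pow, ← hf, ha _ f.2, div_self]
    rw [hf]
    exact pow_ne_zero _ hw0
  obtain ⟨ζ, h2, h3⟩ := root_const99 (E := E) hn h1
  exact ⟨ζ, h2, by rw [h3, div_mul_cancel₀ _ hw0]⟩

theorem map_NN99 [IsAlgClosed E] [CharZero E] {n : ℕ} (hn : 0 < n)
    (a : U ≃ₐ[E] U) (ha : ∀ x ∈ L0 E K0 (U := U), a x = x) {x : U}
    (hx : x ∈ NN E K0 n (U := U)) : a x ∈ NN E K0 n (U := U) := by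
  unfold NN at hx
  induction hx using IntermediateField.adjoin_induction with
  | mem y hy =>
    rcases hy with ⟨c, rfl⟩ | hy
    · have h1 : algebraMap K0 U c ∈ L0 E K0 (U := U) :=
        IntermediateField.subset_adjoin _ _ ⟨c, rfl⟩
      rw [ha _ h1]
      exact L0_le99 h1
    · obtain ⟨ζ, -, h2⟩ := eig99 hn hy a ha
      rw [h2]
      exact mul_mem ((NN E K0 n (U := U)).algebraMap_mem ζ) (mem_NN99 hy)
  | algebraMap e =>
    rw [a.commutes]
    exact (NN E K0 n (U := U)).algebraMap_mem e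
  | add y z _ _ h1 h2 => rw [map_add]; exact add_mem h1 h2
  | inv y _ h1 => rw [map_inv₀]; exact inv_mem h1
  | mul y z _ _ h1 h2 => rw [map_mul]; exact mul_mem h1 h2

/-- two homomorphisms which agree on the generators of the level agree on it -/
theorem eq_on_NN99 {n : ℕ} (a b : U →+* U)
    (hE : ∀ e : E, a (algebraMap E U e) = b (algebraMap E U e))
    (hK : ∀ c : K0, a (algebraMap K0 U c) = b (algebraMap K0 U c))
    (hw : ∀ w : U, UR E K0 n w → a w = b w) {x : U} (hx : x ∈ NN E K0 n (U := U)) :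
    a x = b x := by
  unfold NN at hx
  induction hx using IntermediateField.adjoin_induction with
  | mem y hy =>
    rcases hy with ⟨c, rfl⟩ | hy
    · exact hK c
    · exact hw _ hy
  | algebraMap e => exact hE e
  | add y z _ _ h1 h2 => rw [map_add, map_add, h1, h2]
  | inv y _ h1 => rw [map_inv₀, map_inv₀, h1]
  | mul y z _ _ h1 h2 => rw [map_mul, map_mul, h1, h2]

/-- An automorphism over `L0` which fixes a place of the level `n` is trivial on it. -/
theorem triv99 [IsAlgClosed E] [CharZero E]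
    [Algebra.IsAlgebraic (L0 E K0 (U := U)) U] (ff : IsFunctionField E (L0 E K0 (U := U)))
    {n : ℕ} (hn : 0 < n) (Q : Place E (NN E K0 n (U := U))) (a : U ≃ₐ[E] U)
    (ha : ∀ x ∈ L0 E K0 (U := U), a x = x)
    (hQ : ∀ (x : U) (hx : x ∈ NN E K0 n (U := U)) (hx' : a x ∈ NN E K0 n (U := U)),
      (⟨x, hx⟩ : NN E K0 n (U := U)) ∈ Q.ring ↔ (⟨a x, hx'⟩ : NN E K0 n (U := U)) ∈ Q.ring)
    {w : U} (hw : UR E K0 n w) : a w = w := by
  obtain ⟨W, hW⟩ := _root_.SC.exists_place_over (K := E) (M := NN E K0 n (U := U)) (N := U) Q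
  have hW' : ∀ (x : U) (hx : x ∈ NN E K0 n (U := U)),
      x ∈ W.ring ↔ (⟨x, hx⟩ : NN E K0 n (U := U)) ∈ Q.ring := fun x hx => hW ⟨x, hx⟩
  let b : Place E (L0 E K0 (U := U)) := resPlace W.ring W.algebraMap_mem _
    (exists_notMem_of_algebraic W.ne_top)
  have hb : ∀ x : L0 E K0 (U := U), x ∈ b.ring ↔ (x : U) ∈ W.ring := fun x => Iff.rfl
  obtain ⟨hw0, f, hf, hd⟩ := id hw
  obtain ⟨e, he⟩ := hd b
  have hf0 : f ≠ 0 := by
    intro h0
    rw [h0] at hf
    exact pow_ne_zero n hw0 hf.symm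
  obtain ⟨π, hπ0, hπ⟩ := FF.exists_ord_eq ff b e
  have hπ0' : (π : U) ≠ 0 := fun h => hπ0 (Subtype.ext h)
  have hg0 : f / π ^ n ≠ 0 := div_ne_zero hf0 (pow_ne_zero _ hπ0)
  have hord : ord b.ring (f / π ^ n) = 0 := by
    rw [FF.ord_div ff b hf0 (pow_ne_zero _ hπ0), FF.ord_pow ff b hπ0, he, hπ]
    ring
  have h1 : f / π ^ n ∈ b.ring := (FF.ord_nonneg_iff ff b hg0).1 hord.ge
  have h2 : (f / π ^ n)⁻¹ ∈ b.ring := by
    refine (FF.ord_nonneg_iff ff b (inv_ne_zero hg0)).1 ?_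
    rw [FF.ord_inv ff b hg0, hord, neg_zero]
  -- the unit
  set v : U := w / π with hv
  have hvn : v ^ n = ((f / π ^ n : L0 E K0 (U := U)) : U) := by
    rw [hv, div_pow, ← hf]
    rfl
  have h3 : W.ring.valuation (v ^ n) ≤ 1 := by
    rw [hvn, W.ring.valuation_le_one_iff]
    exact h1
  have h4 : W.ring.valuation (v ^ n)⁻¹ ≤ 1 := by
    rw [hvn, W.ring.valuation_le_one_iff]
    exact h2
  have hv0 : v ≠ 0 := div_ne_zero hw0 hπ0'
  have hval0 : W.ring.valuation v ≠ 0 := (Valuation.ne_zero_iff _).2 hv0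
  have h5 : W.ring.valuation v = 1 := by
    rw [map_inv₀, map_pow] at h4
    rw [map_pow] at h3
    have h6 : W.ring.valuation v ^ n = 1 := by
      refine le_antisymm h3 ?_
      exact (inv_le_one₀ (zero_lt_iff.2 (pow_ne_zero n hval0))).1 h4
    exact (pow_eq_one_iff_of_nonneg zero_le hn.ne').1 h6
  have hvW : v ∈ W.ring := by
    rw [← W.ring.valuation_le_one_iff, h5]
  obtain ⟨c, hc⟩ := exists_const_residue_abs (C := E) (M := L0 E K0 (U := U)) (Ω := U) ff
    W.algebraMap_mem W.ne_top hvW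
  have hπN : (π : U) ∈ NN E K0 n (U := U) := L0_le99 π.2
  have hvN : v ∈ NN E K0 n (U := U) := div_mem (mem_NN99 hw) hπN
  have hvcN : v - algebraMap E U c ∈ NN E K0 n (U := U) :=
    sub_mem hvN ((NN E K0 n (U := U)).algebraMap_mem c)
  have hnon : W.ring.valuation (a (v - algebraMap E U c)) < 1 := by
    rw [← ValuationSubring.mem_nonunits_iff, ValuationSubring.mem_nonunits_iff_or] at hc ⊢
    rcases hc with h6 | h6
    · exact Or.inl (by rw [h6, map_zero])
    · right
      intro h7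
      apply h6
      rw [← map_inv₀] at h7
      have h8 := map_NN99 hn a ha (inv_mem hvcN)
      rw [hW' _ (inv_mem hvcN), hQ _ _ h8, ← hW' _ h8]
      exact h7
  obtain ⟨ζ, -, hζ⟩ := eig99 hn hw a ha
  have hav : a v = algebraMap E U ζ * v := by
    rw [hv, map_div₀, hζ, ha _ π.2, mul_div_assoc]
  have hζ1 : ζ = 1 := by
    by_contra hne
    have h6 : a (v - algebraMap E U c) - (v - algebraMap E U c) = algebraMap E U (ζ - 1) * v := by
      rw [map_sub, a.commutes, hav, map_sub, map_one]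
      ring
    have h7 : W.ring.valuation (algebraMap E U (ζ - 1) * v) < 1 := by
      rw [← h6]
      exact (Valuation.map_sub _ _ _).trans_lt (max_lt hnon hc)
    rw [map_mul, h5, mul_one] at h7
    rw [← ValuationSubring.mem_nonunits_iff, ValuationSubring.mem_nonunits_iff_or] at h7
    rcases h7 with h8 | h8
    · exact hne (sub_eq_zero.1 ((map_eq_zero _).1 h8))
    · apply h8
      rw [← map_inv₀]
      exact W.algebraMap_mem _
  rw [hζ, hζ1, map_one, one_mul]

/-- The automorphisms over `L0` act transitively on the places of `U` over a place of `L0`. -/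
theorem conj99 [CharZero E] [IsGalois (L0 E K0 (U := U)) U] (W W' : ValuationSubring U)
    (h : ∀ x ∈ L0 E K0 (U := U), x ∈ W ↔ x ∈ W') :
    ∃ a : U ≃ₐ[E] U, (∀ x ∈ L0 E K0 (U := U), a x = x) ∧ ∀ z, a z ∈ W' ↔ z ∈ W := by
  obtain ⟨σ, hσ⟩ := exists_conj_val (L := L0 E K0 (U := U)) W W' (fun c => h c.1 c.2)
  refine ⟨σ.restrictScalars E, fun x hx => σ.commutes ⟨x, hx⟩, hσ⟩

/-- The automorphisms over `L0` act transitively on the places of two levels over `b`. -/
theorem conj_lev99 [IsAlgClosed E] [CharZero E] [IsGalois (L0 E K0 (U := U)) U] {n : ℕ}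
    (b : Place E (L0 E K0 (U := U))) (P P' : Place E (NN E K0 n (U := U)))
    (hP : OverPl b P) (hP' : OverPl b P') :
    ∃ a : U ≃ₐ[E] U, (∀ x ∈ L0 E K0 (U := U), a x = x) ∧
      ∀ (x : U) (hx : x ∈ NN E K0 n (U := U)) (hx' : a x ∈ NN E K0 n (U := U)),
        (⟨x, hx⟩ : NN E K0 n (U := U)) ∈ P.ring ↔ (⟨a x, hx'⟩ : NN E K0 n (U := U)) ∈ P'.ring := by
  obtain ⟨W, hW⟩ := _root_.SC.exists_place_over (K := E) (M := NN E K0 n (U := U)) (N := U) P
  obtain ⟨W', hW'⟩ := _root_.SC.exists_place_over (K := E) (M := NN E K0 n (U := U)) (N := U) P'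
  obtain ⟨a, ha, h1⟩ := conj99 (E := E) (K0 := K0) W.ring W'.ring (by
    intro x hx
    have h2 := hW ⟨x, L0_le99 hx⟩
    have h3 := hW' ⟨x, L0_le99 hx⟩
    have h4 := hP x hx (L0_le99 hx)
    have h5 := hP' x hx (L0_le99 hx)
    exact h2.trans (h4.symm.trans (h5.trans h3.symm)))
  refine ⟨a, ha, fun x hx hx' => ?_⟩
  exact (hW ⟨x, hx⟩).symm.trans ((h1 x).symm.trans (hW' ⟨a x, hx'⟩))

/-- the image of a place under an automorphism determines it -/
theorem place_ext99 [IsAlgClosed E] [CharZero E] {n : ℕ} (hn : 0 < n)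
    (P0 P P' : Place E (NN E K0 n (U := U))) (a a' : U ≃ₐ[E] U)
    (ha : ∀ x ∈ L0 E K0 (U := U), a x = x)
    (h1 : ∀ (x : U) (hx : x ∈ NN E K0 n (U := U)) (hx' : a x ∈ NN E K0 n (U := U)),
        (⟨x, hx⟩ : NN E K0 n (U := U)) ∈ P0.ring ↔ (⟨a x, hx'⟩ : NN E K0 n (U := U)) ∈ P.ring)
    (h2 : ∀ (x : U) (hx : x ∈ NN E K0 n (U := U)) (hx' : a' x ∈ NN E K0 n (U := U)),
        (⟨x, hx⟩ : NN E K0 n (U := U)) ∈ P0.ring ↔ (⟨a' x, hx'⟩ : NN E K0 n (U := U)) ∈ P'.ring)
    (haa : ∀ x ∈ NN E K0 n (U := U), a x = a' x) : P = P' := by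
  refine Place.ext (ValuationSubring.ext _ _ fun x => ?_)
  have ha' : ∀ x ∈ L0 E K0 (U := U), a.symm x = x := by
    intro x hx
    rw [AlgEquiv.symm_apply_eq, ha x hx]
  have h3 : a.symm (x : U) ∈ NN E K0 n (U := U) := map_NN99 hn a.symm ha' x.2
  have h4 : a (a.symm (x : U)) = x := AlgEquiv.apply_symm_apply a _
  have h4' : a' (a.symm (x : U)) = x := by rw [← haa _ h3, h4]
  have h5 := h1 _ h3 (by rw [h4]; exact x.2)
  have h6 := h2 _ h3 (by rw [h4']; exact x.2)
  have h7 : (⟨a (a.symm (x : U)), by rw [h4]; exact x.2⟩ : NN E K0 n (U := U)) = x :=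
    Subtype.ext h4
  have h8 : (⟨a' (a.symm (x : U)), by rw [h4']; exact x.2⟩ : NN E K0 n (U := U)) = x :=
    Subtype.ext h4'
  rw [h7] at h5
  rw [h8] at h6
  exact h5.symm.trans h6

/-! ## The semilinear automorphisms -/

theorem map_L0_99 {k : Type} [Field k] [Algebra k E] [Algebra k U]
    (φ : U ≃+* U) (g : E ≃ₐ[k] E) (hE : ∀ e : E, φ (algebraMap E U e) = algebraMap E U (g e))
    (hK : ∀ x : K0, φ (algebraMap K0 U x) = algebraMap K0 U x) {x : U}
    (hx : x ∈ L0 E K0 (U := U)) : φ x ∈ L0 E K0 (U := U) := by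
  have hx' := hx
  unfold L0 at hx'
  induction hx' using IntermediateField.adjoin_induction with
  | mem y hy =>
    obtain ⟨c, rfl⟩ := hy
    rw [hK]
    exact IntermediateField.subset_adjoin _ _ ⟨c, rfl⟩
  | algebraMap e =>
    rw [hE]
    exact (L0 E K0 (U := U)).algebraMap_mem _
  | add y z hy hz h1 h2 =>
    rw [map_add]
    exact add_mem (h1 hy) (h2 hz)
  | inv y hy h1 =>
    rw [map_inv₀]
    exact inv_mem (h1 hy)
  | mul y z hy hz h1 h2 =>
    rw [map_mul]
    exact mul_mem (h1 hy) (h2 hz)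

/-- `φ` maps `n`-th roots to `n`-th roots -/
theorem map_UR99 {k : Type} [Field k] [Algebra k E] [Algebra k U] [IsAlgClosed E]
    (ff : IsFunctionField E (L0 E K0 (U := U)))
    (φ ψ : U ≃+* U) (g : E ≃ₐ[k] E) (hE : ∀ e : E, φ (algebraMap E U e) = algebraMap E U (g e))
    (hK : ∀ x : K0, φ (algebraMap K0 U x) = algebraMap K0 U x)
    (hE' : ∀ e : E, ψ (algebraMap E U e) = algebraMap E U (g.symm e))
    (hK' : ∀ x : K0, ψ (algebraMap K0 U x) = algebraMap K0 U x)
    (h1 : ∀ x, φ (ψ x) = x) (h2 : ∀ x, ψ (φ x) = x) {n : ℕ} {w : U} (hw : UR E K0 n w) :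
    UR E K0 n (φ w) := by
  obtain ⟨hw0, f, hf, hd⟩ := hw
  let τ : L0 E K0 (U := U) ≃+* L0 E K0 (U := U) :=
    { toFun := fun x => ⟨φ x, map_L0_99 φ g hE hK x.2⟩
      invFun := fun x => ⟨ψ x, map_L0_99 ψ g.symm hE' hK' x.2⟩
      left_inv := fun x => Subtype.ext (h2 x)
      right_inv := fun x => Subtype.ext (h1 x)
      map_mul' := fun x y => Subtype.ext (map_mul φ (x : U) (y : U))
      map_add' := fun x y => Subtype.ext (map_add φ (x : U) (y : U)) }
  have hτ : ∀ e : E, τ (algebraMap E (L0 E K0 (U := U)) e) =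
      algebraMap E (L0 E K0 (U := U)) (g.toRingEquiv e) := fun e => Subtype.ext (hE e)
  refine ⟨(map_ne_zero φ).2 hw0, τ f, ?_, fun P => ?_⟩
  · show φ (f : U) = _
    rw [hf, map_pow]
  · have h3 := FF.img_symm τ g.toRingEquiv hτ P
    have h4 := FF.ord_img τ g.toRingEquiv hτ ff
      (FF.img τ.symm g.toRingEquiv.symm (FF.symm_semilinear τ g.toRingEquiv hτ) P) f
    rw [h3] at h4
    rw [h4]
    exact hd _

end

theorem UR_two99 {E K0 U : Type} [Field E] [Field K0] [Field U] [Algebra E U]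
    [Algebra K0 U] [IsAlgClosed E] (ff : IsFunctionField E (L0 E K0 (U := U))) {m : ℕ}
    (hm : 1 ≤ m) {w : U} (hw : UR E K0 2 w) : UR E K0 (2 ^ m) w := by
  obtain ⟨hw0, f, hf, hd⟩ := hw
  obtain ⟨j, rfl⟩ : ∃ j, m = j + 1 := ⟨m - 1, by omega⟩
  have hf0 : f ≠ 0 := by
    intro h0
    rw [h0] at hf
    exact pow_ne_zero 2 hw0 hf.symm
  refine ⟨hw0, f ^ 2 ^ j, ?_, fun P => ?_⟩
  · have h1 : ((f ^ 2 ^ j : L0 E K0 (U := U)) : U) = (f : U) ^ 2 ^ j := rfl
    rw [h1, hf, ← pow_mul, ← pow_succ']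
  · rw [FF.ord_pow ff P hf0]
    obtain ⟨e, he⟩ := hd P
    exact ⟨e, by rw [he]; push_cast; ring⟩

/-! ## The theorem -/

theorem mu : StmtFT → StmtMU := by
  intro hFT k K0 E U _ _ _ _ _ _ _ _ _ _ _ _ h r G
  classical
  have hcE : CharZero E := charZero_of_injective_algebraMap (algebraMap k E).injective
  have hcU : CharZero U := charZero_of_injective_algebraMap (algebraMap k U).injective
  have hclE : IsAlgClosed E := G.clE
  have ff := G.ff
  have hn : Normal K0 U := G.normal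
  have hKL : ∀ x : K0, algebraMap K0 U x ∈ L0 E K0 (U := U) :=
    fun x => IntermediateField.subset_adjoin _ _ ⟨x, rfl⟩
  have hcL : CharZero (L0 E K0 (U := U)) :=
    charZero_of_injective_algebraMap (algebraMap E (L0 E K0 (U := U))).injective
  have hgal : IsGalois (L0 E K0 (U := U)) U := by
    let aKL : Algebra K0 (L0 E K0 (U := U)) :=
      (RingHom.codRestrict (algebraMap K0 U) (L0 E K0 (U := U)) hKL).toAlgebra
    have sKL : IsScalarTower K0 (L0 E K0 (U := U)) U := IsScalarTower.of_algebraMap_eq fun x => rfl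
    have hnL : Normal (L0 E K0 (U := U)) U := Normal.tower_top_of_normal K0 (L0 E K0 (U := U)) U
    exact ⟨⟩
  have halg : Algebra.IsAlgebraic (L0 E K0 (U := U)) U := inferInstance
  constructor
  · -- the number of places
    obtain ⟨T, hT0, hT⟩ := hFT E (L0 E K0 (U := U)) ff 2 two_pos
    -- a root of each `t`
    let s : T → U := fun t =>
      if hs : ∃ y : U, y ^ 2 = ((t : L0 E K0 (U := U)) : U) then hs.choose else 0
    have hs : ∀ t : T, ∀ y : U, y ^ 2 = ((t : L0 E K0 (U := U)) : U) →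
        s t ^ 2 = ((t : L0 E K0 (U := U)) : U) := by
      intro t y hy
      have h1 : ∃ y : U, y ^ 2 = ((t : L0 E K0 (U := U)) : U) := ⟨y, hy⟩
      have h2 : s t = h1.choose := dif_pos h1
      rw [h2]
      exact h1.choose_spec
    -- automorphisms with the same signs agree
    have hagree : ∀ a a' : U ≃ₐ[E] U, (∀ x ∈ L0 E K0 (U := U), a x = x) →
        (∀ x ∈ L0 E K0 (U := U), a' x = x) → (∀ t : T, a (s t) = s t ↔ a' (s t) = s t) →
        ∀ x ∈ NN E K0 2 (U := U), a x = a' x := by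
      intro a a' ha ha' hst x hx
      refine eq_on_NN99 (E := E) (K0 := K0) (a : U →+* U) (a' : U →+* U)
        (fun e => (a.commutes e).trans (a'.commutes e).symm)
        (fun c => (ha _ (hKL c)).trans (ha' _ (hKL c)).symm) (fun w hw => ?_) hx
      obtain ⟨hw0, f, hf, hd⟩ := hw
      have hf0 : f ≠ 0 := by
        intro h0
        rw [h0] at hf
        exact pow_ne_zero 2 hw0 hf.symm
      obtain ⟨t, ht, l, hl⟩ := hT f hf0 hd
      have hl0 : (l : U) ≠ 0 := by
        intro h0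
        apply hf0
        have h1 : l = 0 := Subtype.ext h0
        rw [hl, h1]
        ring
      have h1 : (w / l) ^ 2 = (t : U) := by
        rw [div_pow, ← hf, hl]
        show ((t : U) * (l : U) ^ 2) / (l : U) ^ 2 = t
        rw [mul_div_cancel_right₀ _ (pow_ne_zero 2 hl0)]
      have h2 := hs ⟨t, ht⟩ _ h1
      have h3 : w / l = s ⟨t, ht⟩ ∨ w / l = -s ⟨t, ht⟩ := sq_eq_sq_iff_eq_or_eq_neg.1 (h1.trans h2.symm)
      have hsgn : ∀ b : U ≃ₐ[E] U, (∀ x ∈ L0 E K0 (U := U), b x = x) →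
          b (s ⟨t, ht⟩) = s ⟨t, ht⟩ ∨ b (s ⟨t, ht⟩) = -s ⟨t, ht⟩ := by
        intro b hb
        apply sq_eq_sq_iff_eq_or_eq_neg.1
        rw [← map_pow, h2]
        exact hb _ t.2
      have h4 : a (s ⟨t, ht⟩) = a' (s ⟨t, ht⟩) := by
        rcases hsgn a ha with h5 | h5
        · rw [h5, (hst ⟨t, ht⟩).1 h5]
        · rcases hsgn a' ha' with h6 | h6
          · rw [h6, (hst ⟨t, ht⟩).2 h6]
          · rw [h5, h6]
      have h5 : w = (w / l) * l := by rw [div_mul_cancel₀ _ hl0]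
      show a w = a' w
      rw [h5, map_mul, map_mul, ha _ l.2, ha' _ l.2]
      congr 1
      rcases h3 with h6 | h6
      · rw [h6, h4]
      · rw [h6, map_neg, map_neg, h4]
    refine ⟨2 ^ Fintype.card T, fun b => ?_⟩
    by_cases hne : ∃ P0 : Place E (NN E K0 2 (U := U)), OverPl b P0
    · obtain ⟨P0, hP0⟩ := hne
      have hex : ∀ P : {P : Place E (NN E K0 2 (U := U)) | OverPl b P},
          ∃ a : U ≃ₐ[E] U, (∀ x ∈ L0 E K0 (U := U), a x = x) ∧
            ∀ (x : U) (hx : x ∈ NN E K0 2 (U := U)) (hx' : a x ∈ NN E K0 2 (U := U)),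
            (⟨x, hx⟩ : NN E K0 2 (U := U)) ∈ P0.ring ↔
              (⟨a x, hx'⟩ : NN E K0 2 (U := U)) ∈ P.1.ring :=
        fun P => conj_lev99 b P0 P.1 hP0 P.2
      choose a ha1 ha2 using hex
      let g : {P : Place E (NN E K0 2 (U := U)) | OverPl b P} → (T → Bool) :=
        fun P t => decide (a P (s t) = s t)
      have hg : Function.Injective g := by
        intro P P' hPP
        apply Subtype.ext
        refine place_ext99 two_pos P0 P.1 P'.1 (a P) (a P') (ha1 P) (ha2 P) (ha2 P') ?_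
        refine hagree _ _ (ha1 P) (ha1 P') fun t => ?_
        have h1 := congrFun hPP t
        exact decide_eq_decide.1 h1
      have hfin : Finite {P : Place E (NN E K0 2 (U := U)) | OverPl b P} :=
        Finite.of_injective g hg
      refine ⟨Set.toFinite _, ?_⟩
      have h1 := Nat.card_le_card_of_injective g hg
      refine h1.trans (le_of_eq ?_)
      rw [Nat.card_eq_fintype_card, Fintype.card_fun, Fintype.card_bool]
    · have h1 : {P : Place E (NN E K0 2 (U := U)) | OverPl b P} = ∅ := by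
        rw [Set.eq_empty_iff_forall_notMem]
        exact fun P hP => hne ⟨P, hP⟩
      rw [h1]
      refine ⟨Set.finite_empty, ?_⟩
      rw [Nat.card_of_isEmpty]
      exact Nat.zero_le _
  · -- the uniqueness
    intro c Φ hc hA m σ hm hQM b P P' Q Q' hbP hbP' hPQ hPQ' hmQ hmQ'
    have hn0 : 0 < 2 ^ m := Nat.two_pow_pos m
    have hover : ∀ (P : Place E (NN E K0 2 (U := U))) (Q : Place E (NN E K0 (2 ^ m) (U := U))),
        OverPl b P → OverPl P Q → OverPl b Q := by
      intro P Q h1 h2 x hx hx'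
      exact (h1 x hx (L0_le99 hx)).trans (h2 x (L0_le99 hx) hx')
    obtain ⟨a, ha, haQ⟩ := conj_lev99 b Q Q' (hover P Q hbP hPQ) (hover P' Q' hbP' hPQ')
    -- `Φ σ` and its inverse
    have hE := hA.const σ
    have hK := hA.fixK σ
    have hE' : ∀ e : E, Φ σ⁻¹ (algebraMap E U e) = algebraMap E U (σ.symm e) := hA.const σ⁻¹
    have hK' := hA.fixK σ⁻¹
    have h1 : ∀ x, Φ σ (Φ σ⁻¹ x) = x := by
      intro x
      have h3 : (Φ σ * Φ σ⁻¹) x = x := by rw [← map_mul, mul_inv_cancel, map_one]; rfl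
      exact h3
    have h2 : ∀ x, Φ σ⁻¹ (Φ σ x) = x := by
      intro x
      have h3 : (Φ σ⁻¹ * Φ σ) x = x := by rw [← map_mul, inv_mul_cancel, map_one]; rfl
      exact h3
    have hUR : ∀ w : U, UR E K0 (2 ^ m) w → UR E K0 (2 ^ m) (Φ σ w) :=
      fun w hw => map_UR99 ff (Φ σ) (Φ σ⁻¹) σ hE hK hE' hK' h1 h2 hw
    have hNφ : ∀ x ∈ NN E K0 (2 ^ m) (U := U), Φ σ x ∈ NN E K0 (2 ^ m) (U := U) := by
      intro x hx
      unfold NN at hx
      induction hx using IntermediateField.adjoin_induction with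
      | mem y hy =>
        rcases hy with ⟨c, rfl⟩ | hy
        · rw [hK]
          exact L0_le99 (hKL c)
        · exact mem_NN99 (hUR y hy)
      | algebraMap e =>
        rw [hE]
        exact (NN E K0 (2 ^ m) (U := U)).algebraMap_mem _
      | add y z _ _ h1 h2 => rw [map_add]; exact add_mem h1 h2
      | inv y _ h1 => rw [map_inv₀]; exact inv_mem h1
      | mul y z _ _ h1 h2 => rw [map_mul]; exact mul_mem h1 h2
    -- the conjugate of `a`
    let a' : U ≃ₐ[E] U := AlgEquiv.ofRingEquiv (f := ((Φ σ).trans a.toRingEquiv).trans (Φ σ⁻¹)) (by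
      intro e
      show Φ σ⁻¹ (a (Φ σ (algebraMap E U e))) = _
      rw [hE, a.commutes, hE', AlgEquiv.symm_apply_apply])
    have ha'v : ∀ x, a' x = Φ σ⁻¹ (a (Φ σ x)) := fun x => rfl
    have ha'L : ∀ x ∈ L0 E K0 (U := U), a' x = x := by
      intro x hx
      rw [ha'v, ha _ (map_L0_99 (Φ σ) σ hE hK hx), h2]
    have hsymL : ∀ x ∈ L0 E K0 (U := U), a.symm x = x := by
      intro x hx
      rw [AlgEquiv.symm_apply_eq, ha x hx]
    have hbL : ∀ x ∈ L0 E K0 (U := U), (a'.trans a.symm) x = x := by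
      intro x hx
      show a.symm (a' x) = x
      rw [ha'L x hx, hsymL x hx]
    have hcomm : ∀ w : U, UR E K0 (2 ^ m) w → a (Φ σ w) = Φ σ (a w) := by
      intro w hw
      have h3 : (a'.trans a.symm) w = w := by
        refine triv99 ff hn0 Q (a'.trans a.symm) hbL (fun x hx hx' => ?_) hw
        have h4 := hNφ x hx
        have h5 := map_NN99 hn0 a ha h4
        have h6 : a' x ∈ NN E K0 (2 ^ m) (U := U) := map_NN99 hn0 a' ha'L hx
        have h7 : Φ σ (a' x) = a (Φ σ x) := by rw [ha'v, h1]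
        have h8 : a ((a'.trans a.symm) x) = a' x := AlgEquiv.apply_symm_apply a _
        have e1 := hmQ x hx h4
        have e2 := haQ (Φ σ x) h4 h5
        have e3 := hmQ' (a' x) h6 (by rw [h7]; exact h5)
        have e4 := haQ ((a'.trans a.symm) x) hx' (by rw [h8]; exact h6)
        have e5 : (⟨Φ σ (a' x), by rw [h7]; exact h5⟩ : NN E K0 (2 ^ m) (U := U)) = ⟨a (Φ σ x), h5⟩ :=
          Subtype.ext h7
        have e6 : (⟨a ((a'.trans a.symm) x), by rw [h8]; exact h6⟩ : NN E K0 (2 ^ m) (U := U)) =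
            ⟨a' x, h6⟩ := Subtype.ext h8
        rw [e5] at e3
        rw [e6] at e4
        exact e1.trans (e2.trans (e3.symm.trans e4.symm))
      have h4 : a.symm (a' w) = w := h3
      have h5 : a' w = a w := by
        rw [AlgEquiv.symm_apply_eq] at h4
        exact h4
      rw [ha'v] at h5
      rw [← h5, h1]
    have htriv : ∀ w : U, UR E K0 2 w → a w = w := by
      intro w hw
      by_contra hne
      exact hQM ⟨a, ha, hcomm, w, hw, hne⟩
    have hid : ∀ x ∈ NN E K0 2 (U := U), a x = x := by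
      intro x hx
      exact eq_on_NN99 (E := E) (K0 := K0) (a : U →+* U) (RingHom.id U)
        (fun e => a.commutes e) (fun c => ha _ (hKL c)) (fun w hw => htriv w hw) hx
    have hle : NN E K0 2 (U := U) ≤ NN E K0 (2 ^ m) (U := U) := by
      have h3 : NN E K0 2 (U := U) = IntermediateField.adjoin E
        (Set.range (algebraMap K0 U) ∪ {w | UR E K0 2 w}) := rfl
      rw [h3, IntermediateField.adjoin_le_iff]
      rintro y (⟨c, rfl⟩ | hy)
      · exact L0_le99 (hKL c)
      · exact mem_NN99 (UR_two99 ff hm hy)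
    refine Place.ext (ValuationSubring.ext _ _ fun x => ?_)
    have hx := hle x.2
    have h3 := hPQ x.1 x.2 hx
    have h4 := hPQ' x.1 x.2 hx
    have h5 := haQ x.1 hx (by rw [hid _ x.2]; exact hx)
    have h6 : (⟨a (x : U), by rw [hid _ x.2]; exact hx⟩ : NN E K0 (2 ^ m) (U := U)) = ⟨x, hx⟩ :=
      Subtype.ext (hid _ x.2)
    rw [h6] at h5
    exact h3.trans (h5.trans h4.symm)

end Pool.Agent.M
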