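import Pool.Agent.Helper99.M.MU

/-!
# Project M, block FIN: finitely many actions on the level `2 ^ m`
-/

set_option autoImplicit false

namespace Pool.Agent.M

open VC IntermediateField NumberField IsDedekindDomain Pool.Agent.SC Pool.Agent.L
open Pool.Agent.HG (Pr nm IsOdd)

/-- an element of `E K0` is fixed by all automorphisms which fix `K0` and finitely many constants -/
theorem fix_of_const_m99 {K0 E U : Type} [Field K0] [Field E] [Field U] [Algebra E U]
    [Algebra K0 U] (y : U) (hy : y ∈ L0 E K0 (U := U)) : ∃ C : Finset E, ∀ T : U ≃+* U,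
      (∀ x : K0, T (algebraMap K0 U x) = algebraMap K0 U x) →
      (∀ e ∈ C, T (algebraMap E U e) = algebraMap E U e) → T y = y := by
  classical
  unfold L0 at hy
  induction hy using IntermediateField.adjoin_induction with
  | mem y hy =>
    obtain ⟨x, rfl⟩ := hy
    exact ⟨∅, fun T h1 _ => h1 x⟩
  | algebraMap e => exact ⟨{e}, fun T _ h2 => h2 e (Finset.mem_singleton_self e)⟩
  | add a b _ _ ha hb =>
    obtain ⟨C1, h1⟩ := ha
    obtain ⟨C2, h2⟩ := hb
    refine ⟨C1 ∪ C2, fun T hT hC => ?_⟩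
    rw [map_add, h1 T hT fun e he => hC e (Finset.mem_union_left _ he),
      h2 T hT fun e he => hC e (Finset.mem_union_right _ he)]
  | inv a _ ha =>
    obtain ⟨C1, h1⟩ := ha
    exact ⟨C1, fun T hT hC => by rw [map_inv₀, h1 T hT hC]⟩
  | mul a b _ _ ha hb =>
    obtain ⟨C1, h1⟩ := ha
    obtain ⟨C2, h2⟩ := hb
    refine ⟨C1 ∪ C2, fun T hT hC => ?_⟩
    rw [map_mul, h1 T hT fun e he => hC e (Finset.mem_union_left _ he),
      h2 T hT fun e he => hC e (Finset.mem_union_right _ he)]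

/-- two homomorphisms which agree on `E` and on `K0` agree on `E K0` -/
theorem eq_on_L0_99 {K0 E U : Type} [Field K0] [Field E] [Field U] [Algebra E U]
    [Algebra K0 U] (a b : U →+* U)
    (hE : ∀ e : E, a (algebraMap E U e) = b (algebraMap E U e))
    (hK : ∀ c : K0, a (algebraMap K0 U c) = b (algebraMap K0 U c)) {x : U}
    (hx : x ∈ L0 E K0 (U := U)) : a x = b x := by
  unfold L0 at hx
  induction hx using IntermediateField.adjoin_induction with
  | mem y hy =>
    obtain ⟨c, rfl⟩ := hy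
    exact hK c
  | algebraMap e => exact hE e
  | add y z _ _ h1 h2 => rw [map_add, map_add, h1, h2]
  | inv y _ h1 => rw [map_inv₀, map_inv₀, h1]
  | mul y z _ _ h1 h2 => rw [map_mul, map_mul, h1, h2]

section

variable {k K0 E U : Type} [Field k] [Field K0] [Field E] [Field U] [Algebra k K0]
  [Algebra k E] [Algebra E U] [Algebra K0 U] [Algebra k U] {r : U}

omit [Algebra E U] [Algebra k U] in
theorem act_inv99 (Φ : (E ≃ₐ[k] E) →* (U ≃+* U)) (g : E ≃ₐ[k] E) (x : U) :
    Φ g (Φ g⁻¹ x) = x ∧ Φ g⁻¹ (Φ g x) = x := by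
  constructor
  · have h3 : (Φ g * Φ g⁻¹) x = x := by rw [← map_mul, mul_inv_cancel, map_one]; rfl
    exact h3
  · have h3 : (Φ g⁻¹ * Φ g) x = x := by rw [← map_mul, inv_mul_cancel, map_one]; rfl
    exact h3

omit [Algebra E U] [Algebra k U] in
theorem act_mul99 (Φ : (E ≃ₐ[k] E) →* (U ≃+* U)) (g g' : E ≃ₐ[k] E) (x : U) :
    Φ (g * g') x = Φ g (Φ g' x) := by
  rw [map_mul]
  rfl

/-- `Φ g` maps `n`-th roots to `n`-th roots -/
theorem act_UR99 [IsAlgClosed E] (ff : IsFunctionField E (L0 E K0 (U := U))) {c : k}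
    {Φ : (E ≃ₐ[k] E) →* (U ≃+* U)} (hA : Act (K0 := K0) r c Φ) (g : E ≃ₐ[k] E) {n : ℕ} {w : U}
    (hw : UR E K0 n w) : UR E K0 n (Φ g w) :=
  map_UR99 ff (Φ g) (Φ g⁻¹) g (hA.const g) (hA.fixK g) (hA.const g⁻¹) (hA.fixK g⁻¹)
    (fun x => (act_inv99 Φ g x).1) (fun x => (act_inv99 Φ g x).2) hw

omit [Algebra k U] in
/-- if one action fixes the root `z`, another one multiplies it by a root of unity -/
theorem act_eig99 [IsAlgClosed E] [CharZero E] {c c₀ : k} {Φ Φ₀ : (E ≃ₐ[k] E) →* (U ≃+* U)}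
    (hA : Act (K0 := K0) r c Φ) (hA₀ : Act (K0 := K0) r c₀ Φ₀) (g : E ≃ₐ[k] E) {n : ℕ}
    (hn : 0 < n) {z : U} (hz : UR E K0 n z) (hfix : Φ₀ g z = z) :
    ∃ ζ : E, ζ ^ n = 1 ∧ Φ g z = algebraMap E U ζ * z := by
  let a : U ≃ₐ[E] U := AlgEquiv.ofRingEquiv (f := (Φ₀ g⁻¹).trans (Φ g)) (by
    intro e
    show Φ g (Φ₀ g⁻¹ (algebraMap E U e)) = _
    rw [hA₀.const, hA.const]
    congr 1
    exact AlgEquiv.apply_symm_apply g e)
  have hav : ∀ x, a x = Φ g (Φ₀ g⁻¹ x) := fun x => rfl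
  have haL : ∀ x ∈ L0 E K0 (U := U), a x = x := by
    intro x hx
    refine eq_on_L0_99 (a : U →+* U) (RingHom.id U) (fun e => a.commutes e) (fun c => ?_) hx
    show Φ g (Φ₀ g⁻¹ (algebraMap K0 U c)) = _
    rw [hA₀.fixK, hA.fixK]
    rfl
  obtain ⟨ζ, h1, h2⟩ := eig99 hn hz a haL
  refine ⟨ζ, h1, ?_⟩
  have h3 : Φ₀ g⁻¹ z = z := by
    conv_lhs => rw [← hfix]
    exact (act_inv99 Φ₀ g z).2
  rw [hav, h3] at h2
  exact h2

end

/-- nonunits and automorphisms -/
theorem nonunit_iff99 {E : Type} [Field E] {O O' : ValuationSubring E} (g : E ≃+* E)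
    (hg : ∀ x, g x ∈ O' ↔ x ∈ O) (x : E) : O'.valuation (g x) < 1 ↔ O.valuation x < 1 := by
  rw [← ValuationSubring.mem_nonunits_iff, ← ValuationSubring.mem_nonunits_iff,
    ValuationSubring.mem_nonunits_iff_or, ValuationSubring.mem_nonunits_iff_or, ← map_inv₀, hg,
    map_eq_zero]

/-- At almost all primes the inertia acts trivially on finitely many unramified roots, for all
actions. -/
theorem inert_fix99 (hLM : StmtLM) (hFR : StmtFR) (hAR : StmtAR)
    {k K0 E U : Type} [Field k] [NumberField k] [Field K0] [Field E] [Field U] [Algebra k K0]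
    [Algebra k E] [Algebra E U] [Algebra K0 U] [Algebra k U] [IsScalarTower k E U]
    [IsScalarTower k K0 U] {h : K0} {r : U} (G : Geo k K0 E U h r) {n : ℕ} (hn : 0 < n)
    (Z : Finset U) (hZ : ∀ z ∈ Z, UR E K0 n z)
    (hstab : ∀ (c : k) (Φ : (E ≃ₐ[k] E) →* (U ≃+* U)), c ≠ 0 → Act (K0 := K0) r c Φ →
      ∀ g, ∀ z ∈ Z, Φ g z ∈ Z) (c₀ : k) (Φ₀ : (E ≃ₐ[k] E) →* (U ≃+* U))
    (hA₀ : Act (K0 := K0) r c₀ Φ₀) :
    ∃ Bad : Set (Pr k), Bad.Finite ∧ ∀ v ∉ Bad, ∀ O : ValuationSubring E, OverV v O →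
      ∀ τ : E ≃ₐ[k] E, Inert O τ.toRingEquiv →
      ∀ (c : k) (Φ : (E ≃ₐ[k] E) →* (U ≃+* U)), c ≠ 0 → Act (K0 := K0) r c Φ →
      ∀ z ∈ Z, Φ τ z = z := by
  classical
  have hcE : CharZero E := charZero_of_injective_algebraMap (algebraMap k E).injective
  have hcU : CharZero U := charZero_of_injective_algebraMap (algebraMap k U).injective
  have hclE : IsAlgClosed E := G.clE
  have halgE : Algebra.IsAlgebraic k E := G.algE
  have hclos : IsAlgClosure k E := ⟨G.clE, G.algE⟩
  have hgalE : IsGalois k E := IsAlgClosure.isGalois k E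
  have ff := G.ff
  have hKL : ∀ x : K0, algebraMap K0 U x ∈ L0 E K0 (U := U) :=
    fun x => IntermediateField.subset_adjoin _ _ ⟨x, rfl⟩
  obtain ⟨N, hMN, hffN, hZN, -, Bad1, hBad1, hLM⟩ := hLM k K0 E U h r G Z
  have hLN : L0 E K0 (U := U) ≤ N := by
    refine le_trans ?_ hMN
    unfold L0 MM
    exact IntermediateField.adjoin.mono _ _ _ Set.subset_union_left
  -- the constants which make `Φ₀` trivial on `Z`
  have hC0 : ∀ z : U, ∃ C : Finset E, ∀ g : E ≃ₐ[k] E, (∀ x ∈ C, g x = x) → Φ₀ g z = z := by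
    intro z
    obtain ⟨L, hL, h1⟩ := hA₀.cont z
    let B := Module.finBasis k L
    refine ⟨Finset.univ.image fun i => (B i : E), fun g hg => h1 g fun x hx => ?_⟩
    have h2 : (⟨x, hx⟩ : L) = ∑ i, B.repr ⟨x, hx⟩ i • B i := (B.sum_repr _).symm
    have h3 : x = ∑ i, B.repr ⟨x, hx⟩ i • (B i : E) := by
      have h4 := congrArg (fun y : L => (y : E)) h2
      rw [AddSubmonoidClass.coe_finsetSum] at h4
      exact h4
    rw [h3, map_sum]
    refine Finset.sum_congr rfl fun i _ => ?_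
    rw [Algebra.smul_def, map_mul, AlgEquiv.commutes,
      hg _ (Finset.mem_image_of_mem _ (Finset.mem_univ i))]
  choose C0 hC0 using hC0
  -- the branch points
  have hh0 : (inL0 h : L0 E K0 (U := U)) ≠ 0 := by
    intro h0
    have h1 : algebraMap K0 U h = 0 := congrArg Subtype.val h0
    have h2 : r ^ 2 = 0 := by rw [G.rsq, h1]
    apply G.rnot
    rw [pow_eq_zero_iff two_ne_zero] at h2
    rw [h2]
    exact zero_mem _
  have hBfin : {b : Place E (L0 E K0 (U := U)) | BPl h b}.Finite := by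
    refine (FF.finite_support_ord ff hh0).subset fun b hb h0 => hb ?_
    rw [h0]
    exact dvd_zero _
  -- the data at a branch point
  have hdat : ∀ (b : Place E (L0 E K0 (U := U))) (z : U), ∃ (π : L0 E K0 (U := U)) (ρ : E),
      UR E K0 n z → π ≠ 0 ∧ ∃ f : L0 E K0 (U := U), (f : U) = z ^ n ∧ f ≠ 0 ∧ f / π ^ n ∈ b.ring ∧
        (f / π ^ n)⁻¹ ∈ b.ring ∧
        f / π ^ n - algebraMap E (L0 E K0 (U := U)) ρ ∈ b.ring.nonunits := by
    intro b z
    by_cases hz : UR E K0 n z
    · obtain ⟨hz0, f, hf, hd⟩ := hz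
      obtain ⟨e, he⟩ := hd b
      have hf0 : f ≠ 0 := by
        intro h0
        rw [h0] at hf
        exact pow_ne_zero n hz0 hf.symm
      obtain ⟨π, hπ0, hπ⟩ := FF.exists_ord_eq ff b e
      have hg0 : f / π ^ n ≠ 0 := div_ne_zero hf0 (pow_ne_zero _ hπ0)
      have hord : ord b.ring (f / π ^ n) = 0 := by
        rw [FF.ord_div ff b hf0 (pow_ne_zero _ hπ0), FF.ord_pow ff b hπ0, he, hπ]
        ring
      have h1 : f / π ^ n ∈ b.ring := (FF.ord_nonneg_iff ff b hg0).1 hord.ge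
      have h2 : (f / π ^ n)⁻¹ ∈ b.ring := by
        refine (FF.ord_nonneg_iff ff b (inv_ne_zero hg0)).1 ?_
        rw [FF.ord_inv ff b hg0, hord, neg_zero]
      obtain ⟨ρ, hρ⟩ := FF.exists_residue ff b h1
      exact ⟨π, ρ, fun _ => ⟨hπ0, f, hf, hf0, h1, h2, hρ⟩⟩
    · exact ⟨0, 0, fun h => absurd h hz⟩
  choose π ρ hdat using hdat
  choose Cπ hCπ using fun y : L0 E K0 (U := U) => fix_of_const_m99 (K0 := K0) (E := E) (y : U) y.2
  -- all constants
  let Cr : E → Finset E := fun ρ => (Polynomial.X ^ n - Polynomial.C ρ : Polynomial E).roots.toFinset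
  have hCr : ∀ (ρ e : E), e ^ n = ρ → e ∈ Cr ρ := by
    intro ρ e he
    rw [Multiset.mem_toFinset, Polynomial.mem_roots (Polynomial.X_pow_sub_C_ne_zero hn ρ)]
    simp [he]
  let CC : Finset E := Z.biUnion C0 ∪
    (hBfin.toFinset ×ˢ Z).biUnion fun p => Cr (ρ p.1 p.2) ∪ Cπ (π p.1 p.2)
  obtain ⟨Bad2, hBad2, hAR⟩ := hAR k E {2} CC (by
    intro s hs
    rw [Finset.mem_singleton.1 hs]
    exact two_ne_zero)
  refine ⟨Bad1 ∪ Bad2, hBad1.union hBad2, ?_⟩
  -- the case of `DecPt`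
  have hmain : ∀ v ∉ Bad1 ∪ Bad2, ∀ (O : ValuationSubring E) (F : E ≃ₐ[k] E) (p f : ℕ),
      DecPt v O F p f → ∀ τ : E ≃ₐ[k] E, Inert O τ.toRingEquiv →
      ∀ (c : k) (Φ : (E ≃ₐ[k] E) →* (U ≃+* U)), c ≠ 0 → Act (K0 := K0) r c Φ →
      ∀ z ∈ Z, Φ τ z = z := by
    intro v hv O F p f hD τ hτ c Φ hc hA z hz
    have hv1 : v ∉ Bad1 := fun h => hv (Or.inl h)
    have hv2 : v ∉ Bad2 := fun h => hv (Or.inr h)
    obtain ⟨hL1, hL2⟩ := hLM v hv1 c hc Φ hA O F p f hD
    obtain ⟨hS, hC⟩ := hAR v hv2 O hD.above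
    have hC := hC τ hτ
    have hval2 : O.valuation (2 : E) = 1 := hS 2 (Finset.mem_singleton_self 2)
    obtain ⟨d₀, hd₀⟩ := IsAlgClosed.exists_pow_nat_eq (algebraMap k E c) two_pos
    have hd₀0 : d₀ ≠ 0 := by
      intro h0
      rw [h0, zero_pow two_ne_zero] at hd₀
      exact hc ((map_eq_zero _).1 hd₀.symm)
    have hτd : τ d₀ = d₀ ∨ τ d₀ = -d₀ := by
      apply sq_eq_sq_iff_eq_or_eq_neg.1
      rw [← map_pow, hd₀, AlgEquiv.commutes]
    have hdd : ∀ d : E, d ^ 2 = algebraMap k E c → d = d₀ ∨ d = -d₀ :=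
      fun d hd => sq_eq_sq_iff_eq_or_eq_neg.1 (hd.trans hd₀.symm)
    rcases hτd with h1 | h1
    · refine hL1 τ hτ (fun d hd => ?_) z hz
      rcases hdd d hd with rfl | rfl
      · exact h1
      · rw [map_neg, h1]
    · have hneg : ∀ d : E, d ^ 2 = algebraMap k E c → τ d = -d := by
        intro d hd
        rcases hdd d hd with rfl | rfl
        · exact h1
        · rw [map_neg, h1]
      -- `v(c)` is odd
      have hodd : IsOdd v c := by
        intro d hd
        have hd0 : d ≠ 0 := by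
          intro h0
          rw [h0, map_zero, zero_pow two_ne_zero] at hd
          exact (Valuation.ne_zero_iff _).2 hc hd
        have hdE : algebraMap k E d ≠ 0 := (map_ne_zero _).2 hd0
        have hu2 : v.valuation k (c / d ^ 2) = 1 := by
          rw [map_div₀, map_pow, hd]
          exact div_self (pow_ne_zero 2 ((Valuation.ne_zero_iff _).2 hd0))
        have h2 : O.valuation (algebraMap k E (c / d ^ 2)) = 1 := by
          apply le_antisymm
          · rw [O.valuation_le_one_iff]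
            exact (hD.above _).2 hu2.le
          · have h3 : O.valuation (algebraMap k E (c / d ^ 2)⁻¹) ≤ 1 := by
              rw [O.valuation_le_one_iff]
              refine (hD.above _).2 ?_
              rw [map_inv₀, hu2, inv_one]
            rw [map_inv₀, map_inv₀] at h3
            refine (inv_le_one₀ (zero_lt_iff.2 ?_)).1 h3
            rw [Valuation.ne_zero_iff, _root_.map_ne_zero]
            exact div_ne_zero hc (pow_ne_zero 2 hd0)
        have h3 : (d₀ / algebraMap k E d) ^ 2 = algebraMap k E (c / d ^ 2) := by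
          rw [div_pow, hd₀, map_div₀, map_pow]
        have h4 : O.valuation (d₀ / algebraMap k E d) = 1 := by
          rw [← h3, map_pow] at h2
          exact (pow_eq_one_iff_of_nonneg zero_le two_ne_zero).1 h2
        have h5 : d₀ / algebraMap k E d ∈ O := by
          rw [← O.valuation_le_one_iff, h4]
        have h6 := hτ.res _ h5
        have h7 : τ.toRingEquiv (d₀ / algebraMap k E d) - d₀ / algebraMap k E d =
            -(2 * (d₀ / algebraMap k E d)) := by
          have h8 : τ.toRingEquiv (d₀ / algebraMap k E d) = -(d₀ / algebraMap k E d) := by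
            show τ (d₀ / algebraMap k E d) = _
            rw [map_div₀, h1, AlgEquiv.commutes, neg_div]
          rw [h8]
          ring
        rw [h7, Valuation.map_neg, map_mul, hval2, h4, mul_one] at h6
        exact lt_irrefl _ h6
      obtain ⟨b, Q, hb, hbQ, -, hQ⟩ := hL2 hodd
      have hQτ := hQ τ hτ hneg
      -- the valuation ring above `Q`
      obtain ⟨W, hW⟩ := _root_.SC.exists_place_over (K := E) (M := N) (N := U) Q
      have hWQ : ∀ (x : U) (hx : x ∈ N), x ∈ W.ring ↔ (⟨x, hx⟩ : N) ∈ Q.ring :=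
        fun x hx => hW ⟨x, hx⟩
      have hWb : ∀ x : L0 E K0 (U := U), (x : U) ∈ W.ring ↔ x ∈ b.ring := fun x =>
        (hWQ _ (hLN x.2)).trans (hbQ x.1 x.2 (hLN x.2)).symm
      have hWτ : ∀ x ∈ N, Φ τ x ∈ N → (x ∈ W.ring ↔ Φ τ x ∈ W.ring) := fun x hx hx' =>
        (hWQ x hx).trans ((hQτ x hx hx').trans (hWQ _ hx').symm)
      obtain ⟨hπ0, f', hf', hf0', h2, h3, h4⟩ := hdat b z (hZ z hz)
      have hz0 : z ≠ 0 := (hZ z hz).1
      have hπ0' : ((π b z : L0 E K0 (U := U)) : U) ≠ 0 := fun h => hπ0 (Subtype.ext h)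
      have hbB : (b, z) ∈ hBfin.toFinset ×ˢ Z :=
        Finset.mem_product.2 ⟨hBfin.mem_toFinset.2 hb, hz⟩
      have hCb : ∀ e ∈ Cr (ρ b z) ∪ Cπ (π b z), τ e = e := fun e he =>
        hC e (Finset.mem_union_right _ (Finset.mem_biUnion.2 ⟨_, hbB, he⟩))
      have hτπ : Φ τ ((π b z : L0 E K0 (U := U)) : U) = ((π b z : L0 E K0 (U := U)) : U) := by
        refine hCπ _ _ (hA.fixK τ) fun e he => ?_
        rw [hA.const, hCb e (Finset.mem_union_right _ he)]
      have hΦ₀ : Φ₀ τ z = z := hC0 z τ fun x hx =>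
        hC x (Finset.mem_union_left _ (Finset.mem_biUnion.2 ⟨z, hz, hx⟩))
      obtain ⟨α, -, hα⟩ := act_eig99 hA hA₀ τ hn (hZ z hz) hΦ₀
      -- the unit
      set y : U := z / ((π b z : L0 E K0 (U := U)) : U) with hy
      have hyn : y ^ n = ((f' / π b z ^ n : L0 E K0 (U := U)) : U) := by
        rw [hy, div_pow, ← hf']
        rfl
      have hy0 : y ≠ 0 := div_ne_zero hz0 hπ0'
      have hval0 : W.ring.valuation y ≠ 0 := (Valuation.ne_zero_iff _).2 hy0
      have h5 : W.ring.valuation y = 1 := by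
        have h6 : W.ring.valuation (y ^ n) ≤ 1 := by
          rw [hyn, W.ring.valuation_le_one_iff, hWb]
          exact h2
        have h7 : W.ring.valuation (y ^ n)⁻¹ ≤ 1 := by
          rw [hyn, W.ring.valuation_le_one_iff]
          exact (hWb _).2 h3
        rw [map_inv₀, map_pow] at h7
        rw [map_pow] at h6
        have h8 : W.ring.valuation y ^ n = 1 := by
          refine le_antisymm h6 ?_
          exact (inv_le_one₀ (zero_lt_iff.2 (pow_ne_zero n hval0))).1 h7
        exact (pow_eq_one_iff_of_nonneg zero_le hn.ne').1 h8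
      have hyW : y ∈ W.ring := by rw [← W.ring.valuation_le_one_iff, h5]
      have hyN : y ∈ N := div_mem (hZN z hz) (hLN (π b z).2)
      obtain ⟨e, he⟩ := FF.exists_residue hffN Q (x := ⟨y, hyN⟩) ((hWQ y hyN).1 hyW)
      have he' : W.ring.valuation (y - algebraMap E U e) < 1 := by
        rw [← ValuationSubring.mem_nonunits_iff, ValuationSubring.mem_nonunits_iff_or]
        rw [ValuationSubring.mem_nonunits_iff_or] at he
        rcases he with h6 | h6
        · exact Or.inl (congrArg Subtype.val h6)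
        · right
          intro h7
          apply h6
          exact (hWQ _ (inv_mem (sub_mem hyN (N.algebraMap_mem e)))).1 h7
      -- its residue is one of finitely many constants
      have hen : e ^ n = ρ b z := by
        have h6 : W.ring.valuation (y ^ n - algebraMap E U e ^ n) < 1 := by
          obtain ⟨q, hq⟩ : ∃ q ∈ W.ring, y ^ n - algebraMap E U e ^ n =
              q * (y - algebraMap E U e) := by
            refine ⟨∑ i ∈ Finset.range n, y ^ i * algebraMap E U e ^ (n - 1 - i), ?_, ?_⟩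
            · exact W.ring.sum_mem fun i _ => W.ring.mul_mem _ _ (W.ring.pow_mem hyW _)
                (W.ring.pow_mem (W.algebraMap_mem e) _)
            · exact (Commute.all _ _).geom_sum₂_mul n |>.symm
          rw [hq.2, map_mul, mul_comm]
          exact mul_lt_one_of_lt_of_le he' ((W.ring.valuation_le_one_iff _).2 hq.1)
        have h7 : W.ring.valuation (y ^ n - algebraMap E U (ρ b z)) < 1 := by
          have h8 : (f' / π b z ^ n - algebraMap E (L0 E K0 (U := U)) (ρ b z) :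
              L0 E K0 (U := U)) ∈ b.ring.nonunits := h4
          rw [← ValuationSubring.mem_nonunits_iff, ValuationSubring.mem_nonunits_iff_or, hyn]
          rw [ValuationSubring.mem_nonunits_iff_or] at h8
          rcases h8 with h9 | h9
          · exact Or.inl (congrArg Subtype.val h9)
          · right
            intro h10
            apply h9
            exact (hWb _).1 h10
        have h8 : W.ring.valuation (algebraMap E U (e ^ n - ρ b z)) < 1 := by
          have h9 : algebraMap E U (e ^ n - ρ b z) = (y ^ n - algebraMap E U (ρ b z)) -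
              (y ^ n - algebraMap E U e ^ n) := by
            rw [map_sub, map_pow]
            ring
          rw [h9]
          exact (Valuation.map_sub _ _ _).trans_lt (max_lt h7 h6)
        rw [← ValuationSubring.mem_nonunits_iff, ValuationSubring.mem_nonunits_iff_or] at h8
        rcases h8 with h9 | h9
        · exact sub_eq_zero.1 ((map_eq_zero _).1 h9)
        · exfalso
          apply h9
          rw [← map_inv₀]
          exact W.algebraMap_mem _
      have hτe : τ e = e := hCb e (Finset.mem_union_left _ (hCr _ _ hen))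
      -- the action on the unit
      have hτy : Φ τ y = algebraMap E U α * y := by
        rw [hy, map_div₀, hα, hτπ, mul_div_assoc]
      have hτye : Φ τ (y - algebraMap E U e) = algebraMap E U α * y - algebraMap E U e := by
        rw [map_sub, hτy, hA.const, hτe]
      have hmemN : ∀ x : U, x = y - algebraMap E U e ∨ x = (y - algebraMap E U e)⁻¹ →
          x ∈ N ∧ Φ τ x ∈ N := by
        intro x hx
        have h6 : y - algebraMap E U e ∈ N := sub_mem hyN (N.algebraMap_mem e)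
        have h7 : Φ τ (y - algebraMap E U e) ∈ N := by
          rw [hτye]
          exact sub_mem (mul_mem (N.algebraMap_mem α) hyN) (N.algebraMap_mem e)
        rcases hx with rfl | rfl
        · exact ⟨h6, h7⟩
        · refine ⟨inv_mem h6, ?_⟩
          rw [map_inv₀]
          exact inv_mem h7
      have hτnon : W.ring.valuation (algebraMap E U α * y - algebraMap E U e) < 1 := by
        rw [← hτye]
        rw [← ValuationSubring.mem_nonunits_iff, ValuationSubring.mem_nonunits_iff_or] at he' ⊢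
        rcases he' with h6 | h6
        · exact Or.inl (by rw [h6, map_zero])
        · right
          intro h7
          apply h6
          rw [← map_inv₀] at h7
          obtain ⟨h8, h9⟩ := hmemN _ (Or.inr rfl)
          exact (hWτ _ h8 h9).2 h7
      have hα1 : α = 1 := by
        by_contra hne
        have h6 : (algebraMap E U α * y - algebraMap E U e) - (y - algebraMap E U e) =
            algebraMap E U (α - 1) * y := by
          rw [map_sub, map_one]
          ring
        have h7 : W.ring.valuation (algebraMap E U (α - 1) * y) < 1 := by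
          rw [← h6]
          exact (Valuation.map_sub _ _ _).trans_lt (max_lt hτnon he')
        rw [map_mul, h5, mul_one] at h7
        rw [← ValuationSubring.mem_nonunits_iff, ValuationSubring.mem_nonunits_iff_or] at h7
        rcases h7 with h8 | h8
        · exact hne (sub_eq_zero.1 ((map_eq_zero _).1 h8))
        · apply h8
          rw [← map_inv₀]
          exact W.algebraMap_mem _
      rw [hα, hα1, map_one, one_mul]
  -- the general case
  intro v hv O hO τ hτ c Φ hc hA z hz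
  obtain ⟨O₁, F₁, p, f, hD⟩ := hFR k E v
  obtain ⟨g, hg⟩ := exists_conj_val (L := k) (Ω := E) O₁ O (fun x =>
    (hD.above x).trans (hO x).symm)
  have hg' : ∀ x, g x ∈ O ↔ x ∈ O₁ := hg
  have hτ₁ : Inert O₁ (g⁻¹ * τ * g).toRingEquiv := by
    have h1 : ∀ x, g ((g⁻¹ * τ * g) x) = τ (g x) := by
      intro x
      show g (g.symm (τ (g x))) = _
      exact AlgEquiv.apply_symm_apply g _
    constructor
    · intro x
      show (g⁻¹ * τ * g) x ∈ O₁ ↔ x ∈ O₁
      rw [← hg', h1, ← hg' x]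
      exact hτ.stab (g x)
    · intro x hx
      show O₁.valuation ((g⁻¹ * τ * g) x - x) < 1
      rw [← nonunit_iff99 (O := O₁) (O' := O) g.toRingEquiv hg']
      show O.valuation (g ((g⁻¹ * τ * g) x - x)) < 1
      rw [map_sub, h1]
      exact hτ.res _ ((hg' x).2 hx)
  have h2 := hmain v hv O₁ F₁ p f hD _ hτ₁ c Φ hc hA (Φ g⁻¹ z) (hstab c Φ hc hA g⁻¹ z hz)
  have h3 : τ = g * (g⁻¹ * τ * g) * g⁻¹ := by group
  rw [h3, act_mul99, act_mul99, h2]
  exact (act_inv99 Φ g z).1

/-- Characters of order dividing `2 ^ m` which are unramified outside `Bad` are trivial on one open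
subgroup. -/
theorem char_fin99 (hHF : StmtHF) {k E : Type} [Field k] [NumberField k] [Field E] [IsAlgClosed E]
    [CharZero E] [Algebra k E] [Algebra.IsAlgebraic k E] (Bad : Set (Pr k)) (hBad : Bad.Finite)
    (X : Set ((E ≃ₐ[k] E) → E)) : ∀ (m : ℕ) (L : IntermediateField k E), FiniteDimensional k L →
    (∀ χ ∈ X,
      (∀ g g' : E ≃ₐ[k] E, (∀ x ∈ L, g x = x) → (∀ x ∈ L, g' x = x) → χ (g * g') = χ g * χ g') ∧
      (∀ g : E ≃ₐ[k] E, (∀ x ∈ L, g x = x) → χ g ^ 2 ^ m = 1) ∧
      (∃ L' : IntermediateField k E, FiniteDimensional k L' ∧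
        ∀ g : E ≃ₐ[k] E, (∀ x ∈ L, g x = x) → (∀ x ∈ L', g x = x) → χ g = 1) ∧
      ∀ v ∉ Bad, ∀ O : ValuationSubring E, OverV v O → ∀ τ : E ≃ₐ[k] E, (∀ x ∈ L, τ x = x) →
        Inert O τ.toRingEquiv → χ τ = 1) →
    ∃ L₁ : IntermediateField k E, FiniteDimensional k L₁ ∧ L ≤ L₁ ∧
      ∀ χ ∈ X, ∀ g : E ≃ₐ[k] E, (∀ x ∈ L₁, g x = x) → χ g = 1 := by
  classical
  intro m
  induction m with
  | zero =>
    intro L hL h
    refine ⟨L, hL, le_refl _, fun χ hχ g hg => ?_⟩
    have h1 := (h χ hχ).2.1 g hg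
    rwa [pow_zero, pow_one] at h1
  | succ m ih =>
    intro L hL h
    have hS := hHF k E L hL Bad hBad
    set S := {χ : L.fixingSubgroup →* ℤˣ | (∃ L' : IntermediateField k E,
        FiniteDimensional k L' ∧
        ∀ g : L.fixingSubgroup, (∀ x ∈ L', (g : E ≃ₐ[k] E) x = x) → χ g = 1) ∧
      ∀ v ∉ Bad, ∀ O : ValuationSubring E, OverV v O → ∀ τ : L.fixingSubgroup,
        Inert O (τ : E ≃ₐ[k] E).toRingEquiv → χ τ = 1} with hSdef
    have hfinS : Finite S := hS
    choose LS hLS hLS' using fun ψ : S => ψ.2.1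
    set L' : IntermediateField k E := L ⊔ ⨆ ψ : S, LS ψ with hL'
    have hfd1 : FiniteDimensional k (⨆ ψ : S, LS ψ : IntermediateField k E) :=
      IntermediateField.finiteDimensional_iSup_of_finite
    have hfd : FiniteDimensional k L' := IntermediateField.finiteDimensional_sup L _
    have hLL' : L ≤ L' := le_sup_left
    have hfix : ∀ g : E ≃ₐ[k] E, g ∈ L.fixingSubgroup ↔ ∀ x ∈ L, g x = x :=
      fun g => IntermediateField.mem_fixingSubgroup_iff L g
    obtain ⟨L₁, h1, h2, h3⟩ := ih L' hfd (fun χ hχ => by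
      obtain ⟨a1, a2, ⟨L2, a3, a3'⟩, a4⟩ := h χ hχ
      refine ⟨fun g g' hg hg' => a1 g g' (fun x hx => hg x (hLL' hx)) fun x hx => hg' x (hLL' hx),
        fun g hg => ?_, ⟨L2, a3, fun g hg => a3' g fun x hx => hg x (hLL' hx)⟩,
        fun v hv O hO τ hτ => a4 v hv O hO τ fun x hx => hτ x (hLL' hx)⟩
      -- the quadratic character
      have hsq : ∀ g : E ≃ₐ[k] E, (∀ x ∈ L, g x = x) → χ g ^ 2 ^ m = 1 ∨ χ g ^ 2 ^ m = -1 := by
        intro g hg
        have h5 : (χ g ^ 2 ^ m) ^ 2 = 1 := by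
          rw [← pow_mul, ← pow_succ]
          exact a2 g hg
        exact sq_eq_sq_iff_eq_or_eq_neg.1 (h5.trans (one_pow 2).symm)
      have hL1 : ∀ x ∈ L, (1 : E ≃ₐ[k] E) x = x := fun x _ => rfl
      have hχ1 : χ 1 = 1 := by
        have h5 := a1 1 1 hL1 hL1
        have h6 : χ 1 ≠ 0 := by
          intro h0
          have h7 := a2 1 hL1
          rw [h0, zero_pow (Nat.two_pow_pos _).ne'] at h7
          exact zero_ne_one h7
        rw [mul_one] at h5
        exact (mul_right_cancel₀ h6 (h5.symm.trans (one_mul _).symm))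
      have hne : (-1 : E) ≠ 1 := by
        intro h0
        have h5 : (2 : E) = 0 := by linear_combination -h0
        exact two_ne_zero h5
      let ψ : L.fixingSubgroup →* ℤˣ :=
        { toFun := fun g => if χ (g : E ≃ₐ[k] E) ^ 2 ^ m = 1 then 1 else -1
          map_one' := by
            have h5 : χ ((1 : L.fixingSubgroup) : E ≃ₐ[k] E) ^ 2 ^ m = 1 := by
              rw [OneMemClass.coe_one, hχ1, one_pow]
            exact if_pos h5
          map_mul' := by
            intro g g'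
            have hg := (hfix _).1 g.2
            have hg' := (hfix _).1 g'.2
            have h5 : χ ((g * g' : L.fixingSubgroup) : E ≃ₐ[k] E) ^ 2 ^ m =
                χ (g : E ≃ₐ[k] E) ^ 2 ^ m * χ (g' : E ≃ₐ[k] E) ^ 2 ^ m := by
              rw [Subgroup.coe_mul, a1 _ _ hg hg', mul_pow]
            rw [h5]
            rcases hsq _ hg with h6 | h6 <;> rcases hsq _ hg' with h7 | h7 <;>
              simp [h6, h7, hne] }
      have hψS : ψ ∈ S := by
        refine ⟨⟨L2, a3, fun g hg => ?_⟩, fun v hv O hO τ hτ => ?_⟩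
        · have h5 : χ (g : E ≃ₐ[k] E) ^ 2 ^ m = 1 := by
            rw [a3' g ((hfix _).1 g.2) hg, one_pow]
          exact if_pos h5
        · have h5 : χ (τ : E ≃ₐ[k] E) ^ 2 ^ m = 1 := by
            rw [a4 v hv O hO τ ((hfix _).1 τ.2) hτ, one_pow]
          exact if_pos h5
      have h5 : ψ ⟨g, (hfix g).2 fun x hx => hg x (hLL' hx)⟩ = 1 := by
        refine hLS' ⟨ψ, hψS⟩ _ fun x hx => hg x ?_
        exact (le_sup_right : _ ≤ L') ((le_iSup LS ⟨ψ, hψS⟩) hx)
      by_contra hcon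
      have h6 : ψ ⟨g, (hfix g).2 fun x hx => hg x (hLL' hx)⟩ = -1 := if_neg hcon
      rw [h5] at h6
      exact absurd h6 (by decide))
    exact ⟨L₁, h1, hLL'.trans h2, h3⟩

/-- BLOCK FIN -/
theorem fin (hLM : StmtLM) (hFT : StmtFT) (hHF : StmtHF) (hFR : StmtFR) (hAR : StmtAR) :
    StmtFIN := by
  intro k K0 E U _ _ _ _ _ _ _ _ _ _ _ _ h r G m
  classical
  have hcE : CharZero E := charZero_of_injective_algebraMap (algebraMap k E).injective
  have hcU : CharZero U := charZero_of_injective_algebraMap (algebraMap k U).injective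
  have hclE : IsAlgClosed E := G.clE
  have halgE : Algebra.IsAlgebraic k E := G.algE
  have hclos : IsAlgClosure k E := ⟨G.clE, G.algE⟩
  have hgalE : IsGalois k E := IsAlgClosure.isGalois k E
  have ff := G.ff
  have hnorm : Normal K0 U := G.normal
  have hint : ∀ z : U, IsIntegral K0 z := fun z => hnorm.isIntegral z
  have hKL : ∀ x : K0, algebraMap K0 U x ∈ L0 E K0 (U := U) :=
    fun x => IntermediateField.subset_adjoin _ _ ⟨x, rfl⟩
  by_cases hex : ∃ (c₀ : k) (Φ₀ : (E ≃ₐ[k] E) →* (U ≃+* U)), c₀ ≠ 0 ∧ Act (K0 := K0) r c₀ Φ₀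
  swap
  · refine ⟨Empty, inferInstance, fun i => i.elim, fun i => i.elim, fun i => i.elim, ?_⟩
    intro c Φ hc hA
    exact absurd ⟨c, Φ, hc, hA⟩ hex
  obtain ⟨c₀, Φ₀, hc₀, hA₀⟩ := hex
  obtain ⟨n, hnm⟩ : ∃ n : ℕ, n = 2 ^ m := ⟨_, rfl⟩
  have hn : 0 < n := by rw [hnm]; exact Nat.two_pow_pos m
  rw [← hnm]
  obtain ⟨T, hT0, hT⟩ := hFT E (L0 E K0 (U := U)) ff n hn
  -- the roots of the elements of `T`
  let s : L0 E K0 (U := U) → U := fun t =>
    if hs : ∃ y : U, UR E K0 n y ∧ y ^ n = (t : U) then hs.choose else 1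
  have hs : ∀ (t : L0 E K0 (U := U)) (y : U), UR E K0 n y → y ^ n = (t : U) →
      UR E K0 n (s t) ∧ s t ^ n = (t : U) := by
    intro t y hy hyt
    have h1 : ∃ y : U, UR E K0 n y ∧ y ^ n = (t : U) := ⟨y, hy, hyt⟩
    have h2 : s t = h1.choose := dif_pos h1
    rw [h2]
    exact h1.choose_spec
  let Z : Finset U := ((T.image s).biUnion fun z => ((minpoly K0 z).aroots U).toFinset).filter
    (UR E K0 n)
  have hmemZ : ∀ x, x ∈ Z ↔ (∃ t ∈ T, Polynomial.aeval x (minpoly K0 (s t)) = 0) ∧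
      UR E K0 n x := by
    intro x
    rw [Finset.mem_filter, Finset.mem_biUnion]
    refine and_congr_left fun _ => ?_
    constructor
    · rintro ⟨z, hz, hx⟩
      obtain ⟨t, ht, rfl⟩ := Finset.mem_image.1 hz
      rw [Multiset.mem_toFinset, Polynomial.mem_aroots] at hx
      exact ⟨t, ht, hx.2⟩
    · rintro ⟨t, ht, hx⟩
      refine ⟨s t, Finset.mem_image_of_mem _ ht, ?_⟩
      rw [Multiset.mem_toFinset, Polynomial.mem_aroots]
      exact ⟨minpoly.ne_zero (hint _), hx⟩
  have hZ : ∀ z ∈ Z, UR E K0 n z := fun z hz => ((hmemZ z).1 hz).2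
  have hstab : ∀ (c : k) (Φ : (E ≃ₐ[k] E) →* (U ≃+* U)), c ≠ 0 → Act (K0 := K0) r c Φ →
      ∀ g, ∀ z ∈ Z, Φ g z ∈ Z := by
    intro c Φ hc hA g z hz
    obtain ⟨⟨t, ht, h1⟩, h2⟩ := (hmemZ z).1 hz
    refine (hmemZ _).2 ⟨⟨t, ht, ?_⟩, act_UR99 ff hA g h2⟩
    let T' : U →ₐ[K0] U := { (Φ g : U →+* U) with commutes' := hA.fixK g }
    have h3 : Polynomial.aeval (T' z) (minpoly K0 (s t)) =
        T' (Polynomial.aeval z (minpoly K0 (s t))) := Polynomial.aeval_algHom_apply T' z _
    rw [h1, map_zero] at h3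
    exact h3
  -- inertia acts trivially
  obtain ⟨Bad, hBad, hin⟩ := inert_fix99 hLM hFR hAR G hn Z hZ hstab c₀ Φ₀ hA₀
  -- the first level
  choose Lz hLz hLz' using hA₀.cont
  have hfin1 : Finite Z := inferInstance
  let L : IntermediateField k E := (⨆ z : Z, Lz z) ⊔ IntermediateField.adjoin k {ζ : E | ζ ^ n = 1}
  have hfdz : ∀ z : Z, FiniteDimensional k (Lz z) := fun z => hLz z
  have hfd1 : FiniteDimensional k (⨆ z : Z, Lz z : IntermediateField k E) :=
    IntermediateField.finiteDimensional_iSup_of_finite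
  have hroots : {ζ : E | ζ ^ n = 1}.Finite := by
    have h1 := Polynomial.rootSet_finite (Polynomial.X ^ n - 1 : Polynomial E) E
    refine h1.subset fun ζ hζ => ?_
    rw [Polynomial.mem_rootSet]
    refine ⟨Polynomial.X_pow_sub_C_ne_zero hn 1, ?_⟩
    have h2 : ζ ^ n = 1 := hζ
    simp [h2]
  have hfd2 : FiniteDimensional k (IntermediateField.adjoin k {ζ : E | ζ ^ n = 1}) := by
    have h1 : Finite {ζ : E | ζ ^ n = 1} := hroots
    exact IntermediateField.finiteDimensional_adjoin fun x _ => Algebra.IsIntegral.isIntegral x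
  have hfdL : FiniteDimensional k L := IntermediateField.finiteDimensional_sup _ _
  have hL1 : ∀ g : E ≃ₐ[k] E, (∀ x ∈ L, g x = x) → ∀ z ∈ Z, Φ₀ g z = z := by
    intro g hg z hz
    refine hLz' z g fun x hx => hg x ?_
    exact (le_sup_left : _ ≤ L) ((le_iSup (fun z : Z => Lz z) ⟨z, hz⟩) hx)
  have hL2 : ∀ g : E ≃ₐ[k] E, (∀ x ∈ L, g x = x) → ∀ ζ : E, ζ ^ n = 1 → g ζ = ζ := by
    intro g hg ζ hζ
    exact hg ζ ((le_sup_right : _ ≤ L) (IntermediateField.subset_adjoin _ _ hζ))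
  -- the characters
  let X : Set ((E ≃ₐ[k] E) → E) := {χ | ∃ (c : k) (Φ : (E ≃ₐ[k] E) →* (U ≃+* U)) (z : U), c ≠ 0 ∧
    Act (K0 := K0) r c Φ ∧ z ∈ Z ∧ ∀ g : E ≃ₐ[k] E, (∀ x ∈ L, g x = x) →
      χ g ^ n = 1 ∧ Φ g z = algebraMap E U (χ g) * z}
  obtain ⟨L₁, hfdL₁, hLL₁, hchar⟩ := char_fin99 hHF Bad hBad X m L hfdL (by
    rintro χ ⟨c, Φ, z, hc, hA, hz, hχ⟩
    have hz0 : z ≠ 0 := (hZ z hz).1
    have huniq : ∀ a b : E, algebraMap E U a * z = algebraMap E U b * z → a = b := fun a b hab =>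
      (algebraMap E U).injective (mul_right_cancel₀ hz0 hab)
    refine ⟨fun g g' hg hg' => ?_, fun g hg => ?_, ?_, fun v hv O hO τ hτ hI => ?_⟩
    · have hgg : ∀ x ∈ L, (g * g') x = x := by
        intro x hx
        show g (g' x) = x
        rw [hg' x hx, hg x hx]
      have h1 := (hχ _ hgg).2
      rw [act_mul99, (hχ g' hg').2, map_mul, hA.const, hL2 g hg _ (hχ g' hg').1, (hχ g hg).2] at h1
      apply huniq
      rw [← h1, map_mul]
      ring
    · rw [← hnm]
      exact (hχ g hg).1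
    · obtain ⟨L', h1, h2⟩ := hA.cont z
      refine ⟨L', h1, fun g hg hg' => ?_⟩
      apply huniq
      rw [← (hχ g hg).2, h2 g hg', map_one, one_mul]
    · apply huniq
      rw [← (hχ τ hτ).2, hin v hv O hO τ hI c Φ hc hA z hz, map_one, one_mul])
  have hL₁ : ∀ (c : k) (Φ : (E ≃ₐ[k] E) →* (U ≃+* U)), c ≠ 0 → Act (K0 := K0) r c Φ →
      ∀ g : E ≃ₐ[k] E, (∀ x ∈ L₁, g x = x) → ∀ z ∈ Z, Φ g z = z := by
    intro c Φ hc hA g hg z hz
    have h1 : ∀ g : E ≃ₐ[k] E, ∃ ζ : E, (∀ x ∈ L, g x = x) →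
        ζ ^ n = 1 ∧ Φ g z = algebraMap E U ζ * z := by
      intro g
      by_cases hg : ∀ x ∈ L, g x = x
      · obtain ⟨ζ, hζ⟩ := act_eig99 hA hA₀ g hn (hZ z hz) (hL1 g hg z hz)
        exact ⟨ζ, fun _ => hζ⟩
      · exact ⟨1, fun h => absurd h hg⟩
    choose χ hχ using h1
    have h2 := hchar χ ⟨c, Φ, z, hc, hA, hz, hχ⟩ g hg
    have h3 := (hχ g fun x hx => hg x (hLL₁ hx)).2
    rw [h3, h2, map_one, one_mul]
  -- the finitely many restrictions to `Z`
  let A : Type := {p : k × ((E ≃ₐ[k] E) →* (U ≃+* U)) // p.1 ≠ 0 ∧ Act (K0 := K0) r p.1 p.2}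
  let lift : (L₁ →ₐ[k] E) → (E ≃ₐ[k] E) := fun σ =>
    if h1 : ∃ g : E ≃ₐ[k] E, ∀ x : L₁, g x = σ x then h1.choose else 1
  have hlift : ∀ g : E ≃ₐ[k] E, ∀ x : L₁,
      lift ((g : E →ₐ[k] E).comp L₁.val) (x : E) = g x := by
    intro g
    have h1 : ∃ g' : E ≃ₐ[k] E, ∀ x : L₁, g' x = ((g : E →ₐ[k] E).comp L₁.val) x :=
      ⟨g, fun x => rfl⟩
    have h2 : lift ((g : E →ₐ[k] E).comp L₁.val) = h1.choose := dif_pos h1
    intro x
    rw [h2]
    exact h1.choose_spec x
  let F : A → ((L₁ →ₐ[k] E) → Z → Z) := fun p σ z =>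
    ⟨p.1.2 (lift σ) z, hstab p.1.1 p.1.2 p.2.1 p.2.2 _ _ z.2⟩
  have hfinH : Finite (L₁ →ₐ[k] E) := inferInstance
  have hfinF : Finite (Set.range F) := inferInstance
  have hF : ∀ p q : A, F p = F q → ∀ (g : E ≃ₐ[k] E) (z : U), z ∈ Z → p.1.2 g z = q.1.2 g z := by
    intro p q hpq g z hz
    set g₁ := lift ((g : E →ₐ[k] E).comp L₁.val) with hg₁
    have h1 : ∀ x ∈ L₁, (g₁⁻¹ * g) x = x := by
      intro x hx
      show g₁.symm (g x) = x
      rw [AlgEquiv.symm_apply_eq]
      exact (hlift g ⟨x, hx⟩).symm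
    have h2 : g = g₁ * (g₁⁻¹ * g) := by group
    have h3 : p.1.2 g z = p.1.2 g₁ z := by
      conv_lhs => rw [h2]
      rw [act_mul99, hL₁ _ _ p.2.1 p.2.2 _ h1 z hz]
    have h4 : q.1.2 g z = q.1.2 g₁ z := by
      conv_lhs => rw [h2]
      rw [act_mul99, hL₁ _ _ q.2.1 q.2.2 _ h1 z hz]
    have h5 := congrFun (congrFun hpq ((g : E →ₐ[k] E).comp L₁.val)) ⟨z, hz⟩
    have h6 : p.1.2 g₁ z = q.1.2 g₁ z := congrArg Subtype.val h5
    rw [h3, h4, h6]
  refine ⟨Set.range F, hfinF, fun i => i.2.choose.1.1, fun i => i.2.choose.1.2,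
    fun i => i.2.choose.2, ?_⟩
  intro c Φ hc hA
  let p : A := ⟨(c, Φ), hc, hA⟩
  have hp : ∃ q, F q = F p := ⟨p, rfl⟩
  refine ⟨⟨F p, hp⟩, fun g w hw => ?_⟩
  have hq := hp.choose_spec
  set q : A := hp.choose with hqdef
  show Φ g w = q.1.2 g w
  have hZg := hF p q hq.symm g
  obtain ⟨hw0, f, hf, hd⟩ := id hw
  have hf0 : f ≠ 0 := by
    intro h0
    rw [h0] at hf
    exact pow_ne_zero n hw0 hf.symm
  obtain ⟨t, ht, l, hl⟩ := hT f hf0 hd
  have hl0 : l ≠ 0 := by
    intro h0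
    apply hf0
    rw [hl, h0, zero_pow hn.ne', mul_zero]
  have hl0' : (l : U) ≠ 0 := fun h0 => hl0 (Subtype.ext h0)
  have h1 : (w / l) ^ n = (t : U) := by
    rw [div_pow, ← hf, hl]
    show ((t : U) * (l : U) ^ n) / (l : U) ^ n = t
    rw [mul_div_cancel_right₀ _ (pow_ne_zero n hl0')]
  have h2 : UR E K0 n (w / l) := by
    refine ⟨div_ne_zero hw0 hl0', t, h1.symm, fun P => ?_⟩
    have h3 := hd P
    rw [hl, FF.ord_mul ff P (hT0 t ht) (pow_ne_zero n hl0), FF.ord_pow ff P hl0] at h3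
    exact (dvd_add_left (Dvd.intro _ rfl)).1 h3
  obtain ⟨h3, h4⟩ := hs t _ h2 h1
  have h5 : s t ∈ Z := (hmemZ _).2 ⟨⟨t, ht, minpoly.aeval _ _⟩, h3⟩
  have h6 : (w / l / s t) ^ n = 1 := by
    rw [div_pow, h1, h4, div_self]
    rw [← h4]
    exact pow_ne_zero n h3.1
  obtain ⟨ζ, h7, h8⟩ := root_const99 (E := E) hn h6
  have h9 : w = algebraMap E U ζ * s t * l := by
    rw [h8, div_mul_cancel₀ _ h3.1, div_mul_cancel₀ _ hl0']
  have h10 : Φ g (l : U) = q.1.2 g (l : U) := by
    refine eq_on_L0_99 (Φ g : U →+* U) (q.1.2 g : U →+* U) (fun e => ?_) (fun c => ?_) l.2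
    · exact (hA.const g e).trans (q.2.2.const g e).symm
    · exact (hA.fixK g c).trans (q.2.2.fixK g c).symm
  have h11 : Φ g (s t) = q.1.2 g (s t) := hZg (s t) h5
  rw [h9, map_mul, map_mul, map_mul, map_mul, h10, h11, hA.const, q.2.2.const]

end Pool.Agent.M
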