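import Pool.Agent.Helper99.M.FIN
import Pool.Agent.Helper17.FF.PicDiv

/-!
# Project M, block PI: the group of the classes of order a power of two
-/

set_option autoImplicit false

namespace Pool.Agent.M

open VC IntermediateField NumberField IsDedekindDomain Pool.Agent.SC Pool.Agent.L

section

variable {E K0 U : Type} [Field E] [Field K0] [Field U] [Algebra E U] [Algebra K0 U]

theorem UR_up99 [IsAlgClosed E] (ff : IsFunctionField E (L0 E K0 (U := U))) {n : ℕ} (d : ℕ)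
    {w : U} (hw : UR E K0 n w) : UR E K0 (n * d) w := by
  obtain ⟨hw0, f, hf, hd⟩ := hw
  have hf0 : f ≠ 0 := by
    intro h0
    rw [h0] at hf
    exact pow_ne_zero n hw0 hf.symm
  refine ⟨hw0, f ^ d, ?_, fun P => ?_⟩
  · have h1 : ((f ^ d : L0 E K0 (U := U)) : U) = (f : U) ^ d := rfl
    rw [h1, hf, ← pow_mul]
  · rw [FF.ord_pow ff P hf0]
    obtain ⟨e, he⟩ := hd P
    exact ⟨e, by rw [he]; push_cast; ring⟩

theorem UR_up2_99 [IsAlgClosed E] (ff : IsFunctionField E (L0 E K0 (U := U))) {j J : ℕ}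
    (hj : j ≤ J) {w : U} (hw : UR E K0 (2 ^ j) w) : UR E K0 (2 ^ J) w := by
  obtain ⟨d, rfl⟩ := Nat.exists_eq_add_of_le hj
  rw [pow_add]
  exact UR_up99 ff _ hw

theorem UR_mul99 [IsAlgClosed E] (ff : IsFunctionField E (L0 E K0 (U := U))) {n : ℕ}
    {w w' : U} (hw : UR E K0 n w) (hw' : UR E K0 n w') : UR E K0 n (w * w') := by
  obtain ⟨hw0, f, hf, hd⟩ := hw
  obtain ⟨hw0', f', hf', hd'⟩ := hw'
  have hf0 : f ≠ 0 := by
    intro h0
    rw [h0] at hf
    exact pow_ne_zero n hw0 hf.symm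
  have hf0' : f' ≠ 0 := by
    intro h0
    rw [h0] at hf'
    exact pow_ne_zero n hw0' hf'.symm
  refine ⟨mul_ne_zero hw0 hw0', f * f', ?_, fun P => ?_⟩
  · rw [mul_pow, ← hf, ← hf']
    rfl
  · rw [FF.ord_mul ff P hf0 hf0']
    exact dvd_add (hd P) (hd' P)

theorem UR_inv99 [IsAlgClosed E] (ff : IsFunctionField E (L0 E K0 (U := U))) {n : ℕ}
    {w : U} (hw : UR E K0 n w) : UR E K0 n w⁻¹ := by
  obtain ⟨hw0, f, hf, hd⟩ := hw
  have hf0 : f ≠ 0 := by
    intro h0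
    rw [h0] at hf
    exact pow_ne_zero n hw0 hf.symm
  refine ⟨inv_ne_zero hw0, f⁻¹, ?_, fun P => ?_⟩
  · rw [inv_pow, ← hf]
    rfl
  · rw [FF.ord_inv ff P hf0]
    exact (dvd_neg).2 (hd P)

theorem UR_one99 {w : U} (hw0 : w ≠ 0) (hw : w ∈ L0 E K0 (U := U)) : UR E K0 1 w :=
  ⟨hw0, ⟨w, hw⟩, by rw [pow_one], fun P => one_dvd _⟩

/-- `w` is an unramified root of order a power of two -/
def InS (E K0 : Type) [Field E] [Field K0] [Algebra E U] [Algebra K0 U] (w : U) : Prop :=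
  ∃ j : ℕ, UR E K0 (2 ^ j) w

theorem InS_of_L0_99 {w : U} (hw0 : w ≠ 0) (hw : w ∈ L0 E K0 (U := U)) : InS E K0 w :=
  ⟨0, by rw [pow_zero]; exact UR_one99 hw0 hw⟩

theorem InS_mul99 [IsAlgClosed E] (ff : IsFunctionField E (L0 E K0 (U := U))) {w w' : U}
    (hw : InS E K0 w) (hw' : InS E K0 w') : InS E K0 (w * w') := by
  obtain ⟨j, hj⟩ := hw
  obtain ⟨j', hj'⟩ := hw'
  exact ⟨max j j', UR_mul99 ff (UR_up2_99 ff (le_max_left j j') hj)
    (UR_up2_99 ff (le_max_right j j') hj')⟩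

theorem InS_inv99 [IsAlgClosed E] (ff : IsFunctionField E (L0 E K0 (U := U))) {w : U}
    (hw : InS E K0 w) : InS E K0 w⁻¹ := by
  obtain ⟨j, hj⟩ := hw
  exact ⟨j, UR_inv99 ff hj⟩

/-- the value of a unit -/
theorem val_one99 {W : ValuationSubring U} {x : U} (hx0 : x ≠ 0) (h1 : x ∈ W) (h2 : x⁻¹ ∈ W) :
    W.valuation x = 1 := by
  rw [← W.valuation_le_one_iff] at h1 h2
  rw [map_inv₀] at h2
  exact le_antisymm h1 ((inv_le_one₀ (zero_lt_iff.2 ((Valuation.ne_zero_iff _).2 hx0))).1 h2)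

/-- the group of the unramified roots is divisible modulo `L0` -/
theorem div_two99 [IsAlgClosed E] [CharZero E] [Algebra.IsAlgebraic (L0 E K0 (U := U)) U]
    (ff : IsFunctionField E (L0 E K0 (U := U))) {M : IntermediateField E U} (hM : IsCover M)
    {w : U} (hw : InS E K0 w) :
    ∃ (w' : U) (c : U), InS E K0 w' ∧ c ≠ 0 ∧ c ∈ L0 E K0 (U := U) ∧ w' ^ 2 = w / c := by
  classical
  obtain ⟨j, hw0, f, hf, hd⟩ := hw
  have hf0 : f ≠ 0 := by
    intro h0
    rw [h0] at hf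
    exact pow_ne_zero _ hw0 hf.symm
  have hN0 : (2 ^ j : ℕ) ≠ 0 := (Nat.two_pow_pos j).ne'
  have hN0' : ((2 ^ j : ℕ) : ℤ) ≠ 0 := by exact_mod_cast hN0
  choose e he using hd
  have hesupp : {P : Place E (L0 E K0 (U := U)) | e P ≠ 0}.Finite := by
    refine (FF.finite_support_ord ff hf0).subset fun P hP h0 => hP ?_
    rw [he P] at h0
    exact (mul_eq_zero.1 h0).resolve_left hN0'
  let D : Place E (L0 E K0 (U := U)) →₀ ℤ := Finsupp.ofSupportFinite e hesupp
  have hD : ∀ P, D P = e P := fun P => rfl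
  have hDdeg : (D.sum fun _ m => m) = 0 := by
    have h1 : FF.dv ff f = ((2 ^ j : ℕ) : ℤ) • D := by
      ext P
      rw [Finsupp.smul_apply, FF.dv_apply, hD, he P, smul_eq_mul]
    have h2 := FF.deg_dv ff hf0
    rw [h1, map_zsmul, FF.deg_eq, smul_eq_mul] at h2
    exact (mul_eq_zero.1 h2).resolve_left hN0'
  obtain ⟨D', c, hc0, hc⟩ := FF.picDiv ff 2 two_pos D hDdeg
  have hc0' : (c : U) ≠ 0 := fun h0 => hc0 (Subtype.ext h0)
  -- the root
  set g : L0 E K0 (U := U) := f / c ^ 2 ^ j with hg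
  have hg0 : g ≠ 0 := div_ne_zero hf0 (pow_ne_zero _ hc0)
  have hgU : (w / c) ^ 2 ^ j = (g : U) := by
    rw [div_pow, ← hf]
    rfl
  have hgord : ∀ P : Place E (L0 E K0 (U := U)), ord P.ring g = ((2 ^ j : ℕ) : ℤ) * (2 * D' P) := by
    intro P
    rw [hg, FF.ord_div ff P hf0 (pow_ne_zero _ hc0), FF.ord_pow ff P hc0, he P, ← hD P, hc P]
    push_cast
    ring
  have hu0 : w / c ≠ 0 := div_ne_zero hw0 hc0'
  obtain ⟨w', hw'⟩ := hM.root (w / c) 2 two_pos (by
    intro W hW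
    by_cases htop : W = ⊤
    · refine ⟨1, ?_⟩
      rw [one_pow, map_one]
      exact val_one99 hu0 (by rw [htop]; trivial) (by rw [htop]; trivial)
    · let b : Place E (L0 E K0 (U := U)) := resPlace W hW _ (exists_notMem_of_algebraic htop)
      obtain ⟨π, hπ0, hπ⟩ := FF.exists_ord_eq ff b (D' b)
      have hπ0' : (π : U) ≠ 0 := fun h0 => hπ0 (Subtype.ext h0)
      have h1 : g / (π ^ 2) ^ 2 ^ j ≠ 0 := div_ne_zero hg0 (pow_ne_zero _ (pow_ne_zero 2 hπ0))
      have h2 : ord b.ring (g / (π ^ 2) ^ 2 ^ j) = 0 := by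
        rw [FF.ord_div ff b hg0 (pow_ne_zero _ (pow_ne_zero 2 hπ0)),
          FF.ord_pow ff b (pow_ne_zero 2 hπ0), FF.ord_pow ff b hπ0, hπ, hgord]
        push_cast
        ring
      have h3 : g / (π ^ 2) ^ 2 ^ j ∈ b.ring := (FF.ord_nonneg_iff ff b h1).1 h2.ge
      have h4 : (g / (π ^ 2) ^ 2 ^ j)⁻¹ ∈ b.ring := by
        refine (FF.ord_nonneg_iff ff b (inv_ne_zero h1)).1 ?_
        rw [FF.ord_inv ff b h1, h2, neg_zero]
      have h5 : W.valuation ((g / (π ^ 2) ^ 2 ^ j : L0 E K0 (U := U)) : U) = 1 :=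
        val_one99 (fun h0 => h1 (Subtype.ext h0)) h3 h4
      have h6 : ((g / (π ^ 2) ^ 2 ^ j : L0 E K0 (U := U)) : U) =
          (w / c) ^ 2 ^ j / ((π : U) ^ 2) ^ 2 ^ j := by
        rw [hgU]
        rfl
      rw [h6, ← div_pow, map_pow] at h5
      have h7 : W.valuation (w / c / (π : U) ^ 2) = 1 :=
        (pow_eq_one_iff_of_nonneg zero_le hN0).1 h5
      refine ⟨π, ?_⟩
      rw [map_div₀] at h7
      exact (div_eq_one_iff_eq ((Valuation.ne_zero_iff _).2 (pow_ne_zero 2 hπ0'))).1 h7)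
  refine ⟨w', c, ⟨j + 1, ?_, g, ?_, fun P => ?_⟩, hc0', c.2, hw'⟩
  · rintro rfl
    rw [zero_pow two_ne_zero] at hw'
    exact hu0 hw'.symm
  · rw [pow_succ', pow_mul, hw', hgU]
  · rw [hgord]
    exact ⟨D' P, by push_cast; ring⟩

/-! ## The group -/

/-- the group of the unramified roots of order a power of two -/
def grpS [IsAlgClosed E] (ff : IsFunctionField E (L0 E K0 (U := U))) : Subgroup Uˣ where
  carrier := {w | InS E K0 (w : U)}
  mul_mem' := fun ha hb => InS_mul99 ff ha hb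
  one_mem' := InS_of_L0_99 one_ne_zero (one_mem _)
  inv_mem' := fun {x} hx => by
    show InS E K0 ((x⁻¹ : Uˣ) : U)
    rw [Units.val_inv_eq_inv_val]
    exact InS_inv99 ff hx

/-- the subgroup `L0` -/
def subS [IsAlgClosed E] (ff : IsFunctionField E (L0 E K0 (U := U))) : Subgroup (grpS ff) where
  carrier := {w | ((w : Uˣ) : U) ∈ L0 E K0 (U := U)}
  mul_mem' := fun {a b} ha hb => by
    show (((a : Uˣ) * (b : Uˣ) : Uˣ) : U) ∈ L0 E K0 (U := U)
    rw [Units.val_mul]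
    exact mul_mem ha hb
  one_mem' := by
    show ((1 : Uˣ) : U) ∈ L0 E K0 (U := U)
    rw [Units.val_one]
    exact one_mem _
  inv_mem' := fun {x} hx => by
    show (((x : Uˣ)⁻¹ : Uˣ) : U) ∈ L0 E K0 (U := U)
    rw [Units.val_inv_eq_inv_val]
    exact inv_mem hx

end

/-- BLOCK PI -/
theorem pI (hFT : StmtFT) : StmtPI := by
  intro k K0 E U _ _ _ _ _ _ _ _ _ _ _ _ h r G c Φ hc hA
  classical
  have hcE : CharZero E := charZero_of_injective_algebraMap (algebraMap k E).injective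
  have hcU : CharZero U := charZero_of_injective_algebraMap (algebraMap k U).injective
  have hclE : IsAlgClosed E := G.clE
  have ff := G.ff
  have hKL : ∀ x : K0, algebraMap K0 U x ∈ L0 E K0 (U := U) :=
    fun x => IntermediateField.subset_adjoin _ _ ⟨x, rfl⟩
  have halg : Algebra.IsAlgebraic (L0 E K0 (U := U)) U := by
    have hn : Normal K0 U := G.normal
    let aKL : Algebra K0 (L0 E K0 (U := U)) :=
      (RingHom.codRestrict (algebraMap K0 U) (L0 E K0 (U := U)) hKL).toAlgebra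
    have sKL : IsScalarTower K0 (L0 E K0 (U := U)) U := IsScalarTower.of_algebraMap_eq fun x => rfl
    have hnL : Normal (L0 E K0 (U := U)) U := Normal.tower_top_of_normal K0 (L0 E K0 (U := U)) U
    infer_instance
  -- the group
  obtain ⟨P, iP, dP, κ, hκsurj, hκmul, hκ0, hκg⟩ : ∃ (P : Type) (_ : AddCommGroup P)
      (_ : DistribMulAction (E ≃ₐ[k] E) P) (κ : U → P), (∀ p : P, ∃ w : U, InS E K0 w ∧ κ w = p) ∧
      (∀ w w' : U, InS E K0 w → InS E K0 w' → κ (w * w') = κ w + κ w') ∧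
      (∀ w : U, InS E K0 w → (κ w = 0 ↔ w ∈ L0 E K0 (U := U))) ∧
      ∀ (g : E ≃ₐ[k] E) (w : U), InS E K0 w → κ (Φ g w) = g • κ w := by
    let S := grpS (K0 := K0) (U := U) ff
    let N := subS (K0 := K0) (U := U) ff
    have hS : ∀ w : Uˣ, w ∈ S ↔ InS E K0 (w : U) := fun w => Iff.rfl
    have hN : ∀ w : S, w ∈ N ↔ ((w : Uˣ) : U) ∈ L0 E K0 (U := U) := fun w => Iff.rfl
    -- the action on `S`
    have hΦS : ∀ (g : E ≃ₐ[k] E) (w : U), InS E K0 w → InS E K0 (Φ g w) := by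
      rintro g w ⟨j, hj⟩
      exact ⟨j, act_UR99 ff hA g hj⟩
    have hΦL : ∀ (g : E ≃ₐ[k] E) (w : U), w ∈ L0 E K0 (U := U) → Φ g w ∈ L0 E K0 (U := U) :=
      fun g w hw => map_L0_99 (Φ g) g (hA.const g) (hA.fixK g) hw
    let fS : (E ≃ₐ[k] E) → (S →* S) := fun g =>
      { toFun := fun w => ⟨Units.map (Φ g : U →* U) w, hΦS g _ w.2⟩
        map_one' := by
          apply Subtype.ext
          apply Units.ext
          show Φ g 1 = 1
          exact map_one _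
        map_mul' := fun a b => by
          apply Subtype.ext
          apply Units.ext
          show Φ g ((a : Uˣ) * (b : Uˣ) : Uˣ) = Φ g (a : Uˣ) * Φ g (b : Uˣ)
          rw [Units.val_mul, map_mul] }
    have hfS : ∀ (g : E ≃ₐ[k] E) (w : S), ((fS g w : Uˣ) : U) = Φ g ((w : Uˣ) : U) := fun g w => rfl
    have hfN : ∀ g : E ≃ₐ[k] E, N ≤ N.comap (fS g) := by
      intro g w hw
      exact hΦL g _ hw
    let fQ : (E ≃ₐ[k] E) → (S ⧸ N →* S ⧸ N) := fun g => QuotientGroup.map N N (fS g) (hfN g)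
    have hfQ : ∀ (g : E ≃ₐ[k] E) (w : S), fQ g (QuotientGroup.mk w) = QuotientGroup.mk (fS g w) :=
      fun g w => rfl
    have hfQ1 : ∀ q : S ⧸ N, fQ 1 q = q := by
      intro q
      obtain ⟨w, rfl⟩ := QuotientGroup.mk_surjective q
      rw [hfQ]
      have h1 : fS 1 w = w := by
        apply Subtype.ext
        apply Units.ext
        rw [hfS, map_one]
        rfl
      rw [h1]
    have hfQmul : ∀ (g g' : E ≃ₐ[k] E) (q : S ⧸ N), fQ (g * g') q = fQ g (fQ g' q) := by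
      intro g g' q
      obtain ⟨w, rfl⟩ := QuotientGroup.mk_surjective q
      rw [hfQ, hfQ, hfQ]
      have h1 : fS (g * g') w = fS g (fS g' w) := by
        apply Subtype.ext
        apply Units.ext
        rw [hfS, hfS, hfS, act_mul99]
      rw [h1]
    let dist : DistribMulAction (E ≃ₐ[k] E) (Additive (S ⧸ N)) :=
      { smul := fun g p => Additive.ofMul (fQ g (Additive.toMul p))
        one_smul := fun p => congrArg Additive.ofMul (hfQ1 (Additive.toMul p))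
        mul_smul := fun g g' p => congrArg Additive.ofMul (hfQmul g g' (Additive.toMul p))
        smul_zero := fun g => congrArg Additive.ofMul (map_one (fQ g))
        smul_add := fun g p q =>
          congrArg Additive.ofMul (map_mul (fQ g) (Additive.toMul p) (Additive.toMul q)) }
    have hsmul : ∀ (g : E ≃ₐ[k] E) (w : S), g • (Additive.ofMul (QuotientGroup.mk w : S ⧸ N)) =
        Additive.ofMul (QuotientGroup.mk (fS g w) : S ⧸ N) := fun g w => rfl
    -- the class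
    let κ : U → Additive (S ⧸ N) := fun w => if h1 : w ≠ 0 ∧ InS E K0 w then
      Additive.ofMul (QuotientGroup.mk (⟨Units.mk0 w h1.1, h1.2⟩ : S) : S ⧸ N) else 0
    have hκ : ∀ w : S, κ ((w : Uˣ) : U) = Additive.ofMul (QuotientGroup.mk w : S ⧸ N) := by
      intro w
      have h1 : ((w : Uˣ) : U) ≠ 0 ∧ InS E K0 ((w : Uˣ) : U) := ⟨(w : Uˣ).ne_zero, w.2⟩
      have h2 : κ ((w : Uˣ) : U) =
        Additive.ofMul (QuotientGroup.mk (⟨Units.mk0 _ h1.1, h1.2⟩ : S) : S ⧸ N) := dif_pos h1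
      rw [h2]
      congr 2
      apply Subtype.ext
      exact Units.ext rfl
    have hlift : ∀ w : U, InS E K0 w → ∃ s : S, ((s : Uˣ) : U) = w := by
      intro w hw
      obtain ⟨j, hj⟩ := id hw
      exact ⟨⟨Units.mk0 w hj.1, hw⟩, rfl⟩
    have hκsurj : ∀ p : Additive (S ⧸ N), ∃ s : S, κ ((s : Uˣ) : U) = p := by
      intro p
      obtain ⟨w, hw⟩ := QuotientGroup.mk_surjective (Additive.toMul p)
      refine ⟨w, ?_⟩
      rw [hκ, hw]
      rfl
    have hκmul : ∀ w w' : U, InS E K0 w → InS E K0 w' → κ (w * w') = κ w + κ w' := by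
      intro w w' hw hw'
      obtain ⟨s, rfl⟩ := hlift w hw
      obtain ⟨s', rfl⟩ := hlift w' hw'
      have h1 : ((s : Uˣ) : U) * ((s' : Uˣ) : U) = (((s * s' : S) : Uˣ) : U) := rfl
      rw [h1, hκ, hκ, hκ, QuotientGroup.mk_mul, ofMul_mul]
    have hκ0 : ∀ w : U, InS E K0 w → (κ w = 0 ↔ w ∈ L0 E K0 (U := U)) := by
      intro w hw
      obtain ⟨s, rfl⟩ := hlift w hw
      rw [hκ, ← hN, ← QuotientGroup.eq_one_iff, ← ofMul_one, Additive.ofMul.injective.eq_iff]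
    have hκg : ∀ (g : E ≃ₐ[k] E) (w : U), InS E K0 w → κ (Φ g w) = g • κ w := by
      intro g w hw
      obtain ⟨s, rfl⟩ := hlift w hw
      rw [hκ, hsmul, ← hκ, hfS]
    exact ⟨Additive (S ⧸ N), inferInstance, dist, κ, fun p => by
      obtain ⟨s, hs⟩ := hκsurj p
      exact ⟨_, s.2, hs⟩, hκmul, hκ0, hκg⟩
  have hκpow : ∀ (w : U), InS E K0 w → ∀ n : ℕ, InS E K0 (w ^ n) ∧ κ (w ^ n) = n • κ w := by
    intro w hw n
    induction n with
    | zero =>
      rw [pow_zero, zero_smul]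
      have h1 : InS E K0 (1 : U) := InS_of_L0_99 one_ne_zero (one_mem _)
      exact ⟨h1, (hκ0 1 h1).2 (one_mem _)⟩
    | succ n ih =>
      rw [pow_succ, succ_nsmul]
      exact ⟨InS_mul99 ff ih.1 hw, by rw [hκmul _ _ ih.1 hw, ih.2]⟩
  refine ⟨P, iP, dP, κ, ?_, ?_, ?_, ?_, ?_, ?_, ?_, ?_⟩
  · intro p
    obtain ⟨w, ⟨j, hj⟩, hw⟩ := hκsurj p
    exact ⟨w, j, hj, hw⟩
  · intro w w' j j' hw hw'
    exact hκmul w w' ⟨j, hw⟩ ⟨j', hw'⟩
  · intro w j hw
    exact hκ0 w ⟨j, hw⟩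
  · intro g w j hw
    exact hκg g w ⟨j, hw⟩
  · -- torsion
    intro p
    obtain ⟨w, hw, rfl⟩ := hκsurj p
    obtain ⟨j, hj⟩ := id hw
    refine ⟨j, ?_⟩
    obtain ⟨h1, h2⟩ := hκpow _ hw (2 ^ j)
    rw [← h2, hκ0 _ h1]
    obtain ⟨-, f, hf, -⟩ := hj
    rw [← hf]
    exact f.2
  · -- divisible
    intro p
    obtain ⟨w, hw, rfl⟩ := hκsurj p
    obtain ⟨w', c, hw', hc0, hcL, h1⟩ := div_two99 ff G.cover hw
    refine ⟨κ w', ?_⟩
    have hcS : InS E K0 c := InS_of_L0_99 hc0 hcL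
    have h2 : w = w' ^ 2 * c := by
      rw [h1, div_mul_cancel₀ _ hc0]
    rw [h2, hκmul _ _ (hκpow w' hw' 2).1 hcS, (hκpow w' hw' 2).2, (hκ0 c hcS).2 hcL, add_zero]
  · -- the 2-torsion
    obtain ⟨T, hT0, hT⟩ := hFT E (L0 E K0 (U := U)) ff 2 two_pos
    let σ : L0 E K0 (U := U) → U := fun t =>
      if hs : ∃ y : U, y ^ 2 = (t : U) then hs.choose else 1
    refine (T.image fun t => κ (σ t)).finite_toSet.subset ?_
    intro p hp
    obtain ⟨w, hw, rfl⟩ := hκsurj p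
    have hp' : (2 : ℕ) • κ w = 0 := hp
    obtain ⟨h1, h2⟩ := hκpow _ hw 2
    rw [← h2, hκ0 _ h1] at hp'
    have hw0 : w ≠ 0 := by
      obtain ⟨j, hj⟩ := hw
      exact hj.1
    let f : L0 E K0 (U := U) := ⟨w ^ 2, hp'⟩
    have hf0 : f ≠ 0 := fun h0 => pow_ne_zero 2 hw0 (congrArg Subtype.val h0)
    have hfe : ∀ P : Place E (L0 E K0 (U := U)), (2 : ℤ) ∣ ord P.ring f := by
      intro P
      obtain ⟨j, hj⟩ := id hw
      have hj1 := UR_up2_99 ff (Nat.le_succ j) hj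
      obtain ⟨-, f', hf', hd'⟩ := hj1
      have h3 : f' = f ^ 2 ^ j := by
        apply Subtype.ext
        show (f' : U) = (w ^ 2) ^ 2 ^ j
        rw [hf', ← pow_mul, ← pow_succ']
      have h4 := hd' P
      rw [h3, FF.ord_pow ff P hf0] at h4
      obtain ⟨e, he⟩ := h4
      refine ⟨e, ?_⟩
      have h5 : ((2 ^ j : ℕ) : ℤ) ≠ 0 := by
        exact_mod_cast (Nat.two_pow_pos j).ne'
      apply mul_left_cancel₀ h5
      rw [he, Nat.succ_eq_add_one, pow_succ]
      push_cast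
      ring
    obtain ⟨t, ht, l, hl⟩ := hT f hf0 hfe
    have hl0 : l ≠ 0 := by
      intro h0
      apply hf0
      rw [hl, h0]
      ring
    have hl0' : (l : U) ≠ 0 := fun h0 => hl0 (Subtype.ext h0)
    have h3 : (w / l) ^ 2 = (t : U) := by
      have h4 : (f : U) = (t : U) * (l : U) ^ 2 := by rw [hl]; rfl
      have h5 : (f : U) = w ^ 2 := rfl
      rw [div_pow, ← h5, h4, mul_div_cancel_right₀ _ (pow_ne_zero 2 hl0')]
    have h4 : ∃ y : U, y ^ 2 = (t : U) := ⟨_, h3⟩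
    have h5 : σ t = h4.choose := dif_pos h4
    have h6 : σ t ^ 2 = (t : U) := by
      rw [h5]
      exact h4.choose_spec
    have h7 : w / l = σ t ∨ w / l = -σ t := sq_eq_sq_iff_eq_or_eq_neg.1 (h3.trans h6.symm)
    have hlS : InS E K0 ((l : U)) := InS_of_L0_99 hl0' l.2
    have hnlS : InS E K0 (-(l : U)) := InS_of_L0_99 (neg_ne_zero.2 hl0') (neg_mem l.2)
    have hσS : InS E K0 (σ t) := by
      rcases h7 with h8 | h8
      · rw [← h8, div_eq_mul_inv]
        exact InS_mul99 ff hw (InS_inv99 ff hlS)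
      · have h9 : σ t = w * (-(l : U))⁻¹ := by
          rw [inv_neg, mul_neg, ← div_eq_mul_inv, h8, neg_neg]
        rw [h9]
        exact InS_mul99 ff hw (InS_inv99 ff hnlS)
    rw [Finset.mem_coe, Finset.mem_image]
    refine ⟨t, ht, ?_⟩
    show κ (σ t) = κ w
    rcases h7 with h8 | h8
    · have h9 : w = σ t * l := by rw [← h8, div_mul_cancel₀ _ hl0']
      rw [h9, hκmul _ _ hσS hlS, (hκ0 _ hlS).2 l.2, add_zero]
    · have h9 : w = σ t * (-(l : U)) := by
        rw [mul_neg, ← neg_mul, ← h8, div_mul_cancel₀ _ hl0']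
      rw [h9, hκmul _ _ hσS hnlS, (hκ0 _ hnlS).2 (neg_mem l.2), add_zero]
  · -- continuity
    intro p
    obtain ⟨w, hw, rfl⟩ := hκsurj p
    obtain ⟨L, hL, h1⟩ := hA.cont w
    refine ⟨L, hL, fun g hg => ?_⟩
    rw [← hκg g _ hw, h1 g hg]

end Pool.Agent.M
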